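import Pool.Agent.H473.LW.Fam8

/-!
# The number of counterexamples with eight integers
-/

set_option autoImplicit false

namespace Pool.Agent.H473.LW

open Finset Filter Topology

/-- the eight integers. -/
def a9 (t : ℤ) : Fin 8 → ℤ := Fin.cons t (fun i => A8 i t)

/-- their exponents. -/
def b9 (t : ℤ) : Fin 8 → ℤ := Fin.cons (-117318768) (fun i => E8 i t)

lemma a9_gt (t : ℤ) (ht : 10 ^ 7 ≤ t) (i : Fin 8) : 1 < a9 t i := by
  refine Fin.cases ?_ (fun i => ?_) i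
  · simp [a9]; omega
  · simpa [a9] using A8_gt t ht i

lemma b9_ne (t : ℤ) (ht : 10 ^ 7 ≤ t) (i : Fin 8) : b9 t i ≠ 0 := by
  refine Fin.cases ?_ (fun i => ?_) i
  · simp [b9]
  · simpa [b9] using E8_ne t ht i

lemma a9_coprime (t : ℤ) (ht : ((61779564000 : ℕ) : ℤ) ∣ t - 1) :
    Pairwise fun i j => IsCoprime (a9 t i) (a9 t j) := by
  have hM : ((1123264800 : ℕ) : ℤ) ∣ t - 1 := by
    refine Dvd.dvd.trans ?_ ht
    norm_num
  have h0 : ∀ i : Fin 7, IsCoprime t (A8 i t) := by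
    obtain ⟨s, hs⟩ := ht
    have hs2 : t = 1 + 61779564000 * s := by push_cast at hs; linarith
    have key : ∀ c r : ℤ, 61779564000 = c * r → IsCoprime t c := by
      intro c r hcr
      refine ⟨1, -(r * s), ?_⟩
      rw [hs2, hcr]; ring
    intro i
    fin_cases i
    · have := (key 60 1029659400 (by norm_num)).add_mul_left_right 1
      simpa [A8, add_comm] using this
    · have := (key (-60) (-1029659400) (by norm_num)).add_mul_left_right 1
      simpa [A8, add_comm, sub_eq_add_neg] using this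
    · have := (key 30 2059318800 (by norm_num)).add_mul_left_right 1
      simpa [A8, add_comm] using this
    · have := (key (-30) (-2059318800) (by norm_num)).add_mul_left_right 1
      simpa [A8, add_comm, sub_eq_add_neg] using this
    · have := (key (-540) (-114406600) (by norm_num)).add_mul_left_right t
      have h2 : A8 4 t = -540 + t * t := by simp [A8]; ring
      exact h2 ▸ this
    · have := (key (-2250) (-27457584) (by norm_num)).add_mul_left_right t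
      have h2 : A8 5 t = -2250 + t * t := by simp [A8]; ring
      exact h2 ▸ this
    · have := (key (-3300) (-18721080) (by norm_num)).add_mul_left_right t
      have h2 : A8 6 t = -3300 + t * t := by simp [A8]; ring
      exact h2 ▸ this
  intro i j
  refine Fin.cases ?_ (fun i => ?_) i <;> refine Fin.cases ?_ (fun j => ?_) j
  · intro h; exact absurd rfl h
  · intro _; simpa [a9] using h0 j
  · intro _; simpa [a9] using (h0 i).symm
  · intro hij
    have := A8_coprime t hM i j (fun h => hij (by rw [h]))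
    simpa [a9] using this

/-- the logarithm of the product. -/
noncomputable def F9 (t : ℤ) : ℝ :=
  ((-117318768 : ℤ) : ℝ) * Real.log t + ∑ i, ((E8 i t : ℤ) : ℝ) * Real.log ((A8 i t : ℤ) : ℝ)

lemma prod9 (t : ℤ) (ht : 10 ^ 7 ≤ t) :
    (∏ i, ((a9 t i : ℝ) ^ (b9 t i))) = Real.exp (F9 t) := by
  have hT0 : (0 : ℝ) < (t : ℝ) := by exact_mod_cast (by omega : 0 < t)
  have hApos : ∀ i, (0 : ℝ) < (A8 i t : ℝ) := fun i => by
    have := A8_gt t ht i
    exact_mod_cast (by omega : 0 < A8 i t)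
  rw [Fin.prod_univ_succ]
  simp only [a9, b9, Fin.cons_zero, Fin.cons_succ]
  rw [F9, Real.exp_add, Real.exp_sum]
  congr 1
  · rw [mul_comm, ← Real.rpow_def_of_pos hT0, Real.rpow_intCast]
  · refine Finset.prod_congr rfl fun i _ => ?_
    rw [mul_comm, ← Real.rpow_def_of_pos (hApos i), Real.rpow_intCast]

lemma height9 (t : ℤ) (ht : 10 ^ 7 ≤ t) :
    (∏ i, |((b9 t i : ℤ) : ℝ)|) * (∏ i, |((a9 t i : ℤ) : ℝ)|) ≤ 10 ^ 70 * (t : ℝ) ^ 15 := by
  have hT0 : (0 : ℝ) < (t : ℝ) := by exact_mod_cast (by omega : 0 < t)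
  rw [Fin.prod_univ_succ (fun i => |((b9 t i : ℤ) : ℝ)|),
    Fin.prod_univ_succ (fun i => |((a9 t i : ℤ) : ℝ)|)]
  simp only [a9, b9, Fin.cons_zero, Fin.cons_succ]
  have h1 := height8 t ht
  have h2 : |(((-117318768 : ℤ)) : ℝ)| ≤ 10 ^ 9 := by norm_num
  rw [abs_of_pos hT0]
  have h3 : 0 ≤ (∏ i, |((E8 i t : ℤ) : ℝ)|) * (∏ i, |((A8 i t : ℤ) : ℝ)|) := by positivity
  calc |(((-117318768 : ℤ)) : ℝ)| * (∏ i, |((E8 i t : ℤ) : ℝ)|)
        * ((t : ℝ) * ∏ i, |((A8 i t : ℤ) : ℝ)|)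
      = |(((-117318768 : ℤ)) : ℝ)| * t *
        ((∏ i, |((E8 i t : ℤ) : ℝ)|) * (∏ i, |((A8 i t : ℤ) : ℝ)|)) := by ring
    _ ≤ (10 ^ 9 * t) * (10 ^ 61 * (t : ℝ) ^ 14) := by gcongr
    _ = 10 ^ 70 * (t : ℝ) ^ 15 := by ring

/-- for all large `t` the eight integers violate the inequality. -/
lemma point9 (θ ε : ℝ) (hε : 0 ≤ ε) (hlt : 15 * ε < 1 + θ) (C : ℝ) (hC : 0 < C) :
    ∃ T : ℤ, 10 ^ 7 ≤ T ∧ ∀ t : ℤ, T ≤ t →
      (∏ i, ((a9 t i : ℝ) ^ (b9 t i))) ≠ 1 ∧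
      |(∏ i, ((a9 t i : ℝ) ^ (b9 t i))) - 1|
        < C * ((Finset.univ.sup fun i => (b9 t i).natAbs : ℕ) : ℝ) ^ θ /
          ((∏ i, |((b9 t i : ℤ) : ℝ)|) * (∏ i, |((a9 t i : ℤ) : ℝ)|)) ^ (1 + ε) := by
  set κ : ℝ := min 1 (((10 : ℝ) ^ 9) ^ θ) with hκ
  have hκ0 : 0 < κ := lt_min one_pos (Real.rpow_pos_of_pos (by norm_num) _)
  set δ : ℝ := (16 : ℕ) + θ - (15 : ℕ) * (1 + ε) with hδ
  have hδ0 : 0 < δ := by rw [hδ]; push_cast; linarith
  obtain ⟨N, hN⟩ := exists_nat_ge (((0 + 1 : ℕ) : ℝ) * (1 + ε))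
  have hlim : Tendsto (fun x : ℝ => 2 * 10 ^ 61 * (10 ^ 70 : ℝ) ^ (1 + ε) * (1 ^ N * x ^ (-δ))) atTop
      (𝓝 (2 * 10 ^ 61 * (10 ^ 70 : ℝ) ^ (1 + ε) * (1 ^ N * 0))) :=
    ((tendsto_rpow_neg_atTop hδ0).const_mul _).const_mul _
  rw [mul_zero, mul_zero] at hlim
  have hev := hlim.eventually_lt_const (show (0 : ℝ) < C * κ by positivity)
  obtain ⟨X, hX⟩ := eventually_atTop.mp hev
  refine ⟨max (10 ^ 61) ⌈X⌉, ?_, ?_⟩
  · exact le_trans (by norm_num) (le_max_left _ _)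
  intro t ht
  have ht7 : 10 ^ 7 ≤ t := le_trans (le_trans (by norm_num) (le_max_left _ _)) ht
  have ht60 : (10 : ℝ) ^ 61 ≤ (t : ℝ) := by
    have : (10 : ℤ) ^ 61 ≤ t := (le_max_left _ _).trans ht
    exact_mod_cast this
  have htX : X ≤ (t : ℝ) := by
    have : ⌈X⌉ ≤ t := (le_max_right _ _).trans ht
    exact (Int.le_ceil X).trans (by exact_mod_cast this)
  have ht0 : (0 : ℝ) < (t : ℝ) := by linarith [show (0 : ℝ) < 10 ^ 61 by norm_num]
  obtain ⟨hF1, hF2⟩ := F8_main t ht7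
  have hFle : |F9 t| ≤ 1 := by
    refine hF2.trans ?_
    have h1 : (t : ℝ) ≤ (t : ℝ) ^ 16 := le_self_pow₀ (by linarith [show (1 : ℝ) ≤ 10 ^ 61 by norm_num]) (by norm_num)
    rw [← div_eq_mul_inv, div_le_one (by positivity)]
    linarith
  rw [prod9 t ht7]
  refine ⟨fun h => hF1 (by simpa [F9] using h), ?_⟩
  have hBge : (t : ℝ) ≤ ((Finset.univ.sup fun i => (b9 t i).natAbs : ℕ) : ℝ) := by
    have h1 : (b9 t 1).natAbs ≤ (Finset.univ.sup fun i => (b9 t i).natAbs) :=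
      Finset.le_sup (f := fun i => (b9 t i).natAbs) (Finset.mem_univ _)
    have h2 : (((b9 t 1).natAbs : ℕ) : ℝ) ≤ ((Finset.univ.sup fun i => (b9 t i).natAbs : ℕ) : ℝ) := by
      exact_mod_cast h1
    have h3 : t ≤ ((b9 t 1).natAbs : ℤ) := by
      have : b9 t 1 = -308224840 - 5148297 * t := by
        show (Fin.cons (-117318768) (fun i => E8 i t) : Fin 8 → ℤ) (Fin.succ 0) = _
        rw [Fin.cons_succ]
        simp [E8]
      omega
    have h4 : ((t : ℤ) : ℝ) ≤ ((((b9 t 1).natAbs : ℕ) : ℤ) : ℝ) := Int.cast_le.mpr h3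
    rw [Int.cast_natCast] at h4
    linarith
  have hBle : ((Finset.univ.sup fun i => (b9 t i).natAbs : ℕ) : ℝ) ≤ 10 ^ 9 * (t : ℝ) := by
    have h1 : ∀ i, (b9 t i).natAbs ≤ (10 ^ 9 * t).toNat := by
      intro i
      refine Fin.cases ?_ (fun i => ?_) i
      · simp only [b9, Fin.cons_zero]; omega
      · simp only [b9, Fin.cons_succ]
        fin_cases i <;> simp [E8] <;> omega
    have h2 : (Finset.univ.sup fun i => (b9 t i).natAbs) ≤ (10 ^ 9 * t).toNat :=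
      Finset.sup_le fun i _ => h1 i
    have h3 : ((Finset.univ.sup fun i => (b9 t i).natAbs : ℕ) : ℤ) ≤ 10 ^ 9 * t := by omega
    exact_mod_cast h3
  have hBθ : κ * (t : ℝ) ^ θ ≤ ((Finset.univ.sup fun i => (b9 t i).natAbs : ℕ) : ℝ) ^ θ := by
    set B := ((Finset.univ.sup fun i => (b9 t i).natAbs : ℕ) : ℝ)
    have hB0 : 0 < B := lt_of_lt_of_le ht0 hBge
    rcases le_or_gt 0 θ with hθ | hθ
    · calc κ * (t : ℝ) ^ θ ≤ 1 * (t : ℝ) ^ θ := by
            exact mul_le_mul_of_nonneg_right (min_le_left _ _) (Real.rpow_nonneg ht0.le _)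
        _ = (t : ℝ) ^ θ := one_mul _
        _ ≤ B ^ θ := Real.rpow_le_rpow ht0.le hBge hθ
    · calc κ * (t : ℝ) ^ θ ≤ ((10 : ℝ) ^ 9) ^ θ * (t : ℝ) ^ θ := by
            exact mul_le_mul_of_nonneg_right (min_le_right _ _) (Real.rpow_nonneg ht0.le _)
        _ = ((10 : ℝ) ^ 9 * t) ^ θ := by rw [Real.mul_rpow (by positivity) ht0.le]
        _ ≤ B ^ θ := Real.rpow_le_rpow_of_nonpos hB0 hBle hθ.le
  have hH0 : 0 < (∏ i, |((b9 t i : ℤ) : ℝ)|) * (∏ i, |((a9 t i : ℤ) : ℝ)|) := by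
    refine mul_pos (Finset.prod_pos fun i _ => ?_) (Finset.prod_pos fun i _ => ?_)
    · exact abs_pos.mpr (by exact_mod_cast b9_ne t ht7 i)
    · have := a9_gt t ht7 i
      exact abs_pos.mpr (by exact_mod_cast (by omega : a9 t i ≠ 0))
  have hD : |Real.exp (F9 t) - 1| ≤ 2 * 10 ^ 61 * ((t : ℝ) ^ 16)⁻¹ := by
    refine (Real.abs_exp_sub_one_le hFle).trans ?_
    calc 2 * |F9 t| ≤ 2 * (10 ^ 61 * ((t : ℝ) ^ 16)⁻¹) := by
          have := hF2
          unfold F9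
          linarith
      _ = _ := by ring
  refine final_ineq 16 15 0 N (10 ^ 61) (10 ^ 70) κ θ ε C (t : ℝ) 1 _ _ _ (by positivity)
    (by positivity) hε hC ht0 le_rfl hH0 hN hD hBθ ?_ (hX (t : ℝ) htX)
  simpa using height9 t ht7

end Pool.Agent.H473.LW
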