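import Mathlib

/-!
# Truncated series of the logarithm
-/

set_option autoImplicit false

namespace Pool.Agent.H473.LW

open Finset

lemma log_one_sub (n : ℕ) (x : ℝ) (hx : |x| ≤ 1 / 2) :
    ∃ e : ℝ, Real.log (1 - x) = -(∑ i ∈ range n, x ^ (i + 1) / ((i : ℝ) + 1)) + e ∧
      |e| ≤ 2 * |x| ^ (n + 1) := by
  refine ⟨(∑ i ∈ range n, x ^ (i + 1) / ((i : ℝ) + 1)) + Real.log (1 - x), by ring, ?_⟩
  have h1 : |x| < 1 := by linarith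
  refine (Real.abs_log_sub_add_sum_range_le h1 n).trans ?_
  rw [div_le_iff₀ (by linarith)]
  have h2 : 0 ≤ |x| ^ (n + 1) := by positivity
  nlinarith

/-- `log (1 + x) - log (1 - x)` up to order `18`. -/
lemma log_diff18 (x : ℝ) (hx : |x| ≤ 1 / 2) :
    ∃ e : ℝ, Real.log (1 + x) - Real.log (1 - x) =
      2 * x * (1 + x ^ 2 / 3 + x ^ 4 / 5 + x ^ 6 / 7 + x ^ 8 / 9 + x ^ 10 / 11 + x ^ 12 / 13
        + x ^ 14 / 15 + x ^ 16 / 17) + e ∧ |e| ≤ 4 * |x| ^ 19 := by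
  obtain ⟨e1, h1, h1'⟩ := log_one_sub 18 x hx
  obtain ⟨e2, h2, h2'⟩ := log_one_sub 18 (-x) (by rwa [abs_neg])
  rw [sub_neg_eq_add] at h2
  rw [abs_neg] at h2'
  refine ⟨e2 - e1, ?_, ?_⟩
  · rw [h1, h2]
    simp only [Finset.sum_range_succ, Finset.sum_range_zero]
    push_cast
    ring
  · rw [show (18 + 1 : ℕ) = 19 from rfl] at h1' h2'
    calc |e2 - e1| ≤ |e2| + |e1| := abs_sub _ _
      _ ≤ 4 * |x| ^ 19 := by linarith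

/-- `log (1 + x) - log (1 - x)` up to order `12`. -/
lemma log_diff12 (x : ℝ) (hx : |x| ≤ 1 / 2) :
    ∃ e : ℝ, Real.log (1 + x) - Real.log (1 - x) =
      2 * x * (1 + x ^ 2 / 3 + x ^ 4 / 5 + x ^ 6 / 7 + x ^ 8 / 9 + x ^ 10 / 11) + e ∧
        |e| ≤ 4 * |x| ^ 13 := by
  obtain ⟨e1, h1, h1'⟩ := log_one_sub 12 x hx
  obtain ⟨e2, h2, h2'⟩ := log_one_sub 12 (-x) (by rwa [abs_neg])
  rw [sub_neg_eq_add] at h2
  rw [abs_neg] at h2'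
  refine ⟨e2 - e1, ?_, ?_⟩
  · rw [h1, h2]
    simp only [Finset.sum_range_succ, Finset.sum_range_zero]
    push_cast
    ring
  · rw [show (12 + 1 : ℕ) = 13 from rfl] at h1' h2'
    calc |e2 - e1| ≤ |e2| + |e1| := abs_sub _ _
      _ ≤ 4 * |x| ^ 13 := by linarith

/-- `log (1 - u x^2)` up to order `16`. -/
lemma log_sq16 (u x : ℝ) (hu : |u| ≤ 1) (hx : |x| ≤ 1 / 2) :
    ∃ e : ℝ, Real.log (1 - u * x ^ 2) =
      -(u * x ^ 2 + (u * x ^ 2) ^ 2 / 2 + (u * x ^ 2) ^ 3 / 3 + (u * x ^ 2) ^ 4 / 4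
        + (u * x ^ 2) ^ 5 / 5 + (u * x ^ 2) ^ 6 / 6 + (u * x ^ 2) ^ 7 / 7
        + (u * x ^ 2) ^ 8 / 8) + e ∧ |e| ≤ 2 * |x| ^ 18 := by
  have hx2 : x ^ 2 = |x| ^ 2 := (sq_abs x).symm
  have h0 : |u * x ^ 2| ≤ |x| ^ 2 := by
    rw [abs_mul, hx2, abs_pow, abs_abs]
    exact mul_le_of_le_one_left (by positivity) hu
  have h1 : |u * x ^ 2| ≤ 1 / 2 := by
    refine h0.trans ?_
    have := abs_nonneg x
    nlinarith
  obtain ⟨e, he, he'⟩ := log_one_sub 8 (u * x ^ 2) h1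
  refine ⟨e, ?_, ?_⟩
  · rw [he]
    simp only [Finset.sum_range_succ, Finset.sum_range_zero]
    push_cast
    ring
  · refine he'.trans ?_
    have h2 : |u * x ^ 2| ^ (8 + 1) ≤ (|x| ^ 2) ^ (8 + 1) := by gcongr
    calc 2 * |u * x ^ 2| ^ (8 + 1) ≤ 2 * (|x| ^ 2) ^ (8 + 1) := by linarith
      _ = 2 * |x| ^ 18 := by ring

/-- `log (1 - u x^2)` up to order `10`. -/
lemma log_sq10 (u x : ℝ) (hu : |u| ≤ 1) (hx : |x| ≤ 1 / 2) :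
    ∃ e : ℝ, Real.log (1 - u * x ^ 2) =
      -(u * x ^ 2 + (u * x ^ 2) ^ 2 / 2 + (u * x ^ 2) ^ 3 / 3 + (u * x ^ 2) ^ 4 / 4
        + (u * x ^ 2) ^ 5 / 5) + e ∧ |e| ≤ 2 * |x| ^ 12 := by
  have hx2 : x ^ 2 = |x| ^ 2 := (sq_abs x).symm
  have h0 : |u * x ^ 2| ≤ |x| ^ 2 := by
    rw [abs_mul, hx2, abs_pow, abs_abs]
    exact mul_le_of_le_one_left (by positivity) hu
  have h1 : |u * x ^ 2| ≤ 1 / 2 := by
    refine h0.trans ?_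
    have := abs_nonneg x
    nlinarith
  obtain ⟨e, he, he'⟩ := log_one_sub 5 (u * x ^ 2) h1
  refine ⟨e, ?_, ?_⟩
  · rw [he]
    simp only [Finset.sum_range_succ, Finset.sum_range_zero]
    push_cast
    ring
  · refine he'.trans ?_
    have h2 : |u * x ^ 2| ^ (5 + 1) ≤ (|x| ^ 2) ^ (5 + 1) := by gcongr
    calc 2 * |u * x ^ 2| ^ (5 + 1) ≤ 2 * (|x| ^ 2) ^ (5 + 1) := by linarith
      _ = 2 * |x| ^ 12 := by ring

end Pool.Agent.H473.LW
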