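import Pool.Agent.H473.LW.Gen
import Pool.Agent.H473.LW.Ser

/-!
# The family of six integers
-/

set_option autoImplicit false

namespace Pool.Agent.H473.LW

open Finset

/-- the values of the five polynomials. -/
def A6 (i : Fin 5) (t : ℤ) : ℤ :=
  (![t + 12, t - 12, t + 6, t - 6, t ^ 2 - 84] : Fin 5 → ℤ) i

/-- the exponents. -/
def E6 (i : Fin 5) (t : ℤ) : ℤ :=
  (![-392 - 35 * t, -392 + 35 * t, 350 + 70 * t, 350 - 70 * t, 162] : Fin 5 → ℤ) i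

lemma A6_coprime (t : ℤ) (ht : ((720 : ℕ) : ℤ) ∣ t - 1) (i j : Fin 5) (hij : i ≠ j) :
    IsCoprime (A6 i t) (A6 j t) := by
  obtain ⟨s, hs⟩ := ht
  have hs2 : t = 1 + 720 * s := by push_cast at hs; linarith
  subst hs2
  clear hs
  have h01 : IsCoprime (((1 : ℤ) + 720 * s) + 12) ((1 + 720 * s) - 12) :=
    ⟨(-11 + (6 - -11 * (30) * s) * 1), (-(6 - -11 * (30) * s)), by ring⟩
  have h02 : IsCoprime (((1 : ℤ) + 720 * s) + 12) ((1 + 720 * s) + 6) :=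
    ⟨(1 + (-2 - 1 * (120) * s) * 1), (-(-2 - 1 * (120) * s)), by ring⟩
  have h03 : IsCoprime (((1 : ℤ) + 720 * s) + 12) ((1 + 720 * s) - 6) :=
    ⟨(7 + (-5 - 7 * (40) * s) * 1), (-(-5 - 7 * (40) * s)), by ring⟩
  have h04 : IsCoprime (((1 : ℤ) + 720 * s) + 12) ((1 + 720 * s) ^ 2 - 84) :=
    ⟨(-23 + (-5 - -23 * (-12) * s) * ((1 + 720 * s) - (12))), (-(-5 - -23 * (-12) * s)), by ring⟩
  have h12 : IsCoprime (((1 : ℤ) + 720 * s) - 12) ((1 + 720 * s) + 6) :=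
    ⟨(-5 + (3 - -5 * (-40) * s) * 1), (-(3 - -5 * (-40) * s)), by ring⟩
  have h13 : IsCoprime (((1 : ℤ) + 720 * s) - 12) ((1 + 720 * s) - 6) :=
    ⟨(1 + (-2 - 1 * (-120) * s) * 1), (-(-2 - 1 * (-120) * s)), by ring⟩
  have h14 : IsCoprime (((1 : ℤ) + 720 * s) - 12) ((1 + 720 * s) ^ 2 - 84) :=
    ⟨(-11 + (2 - -11 * (-12) * s) * ((1 + 720 * s) - (-12))), (-(2 - -11 * (-12) * s)), by ring⟩
  have h23 : IsCoprime (((1 : ℤ) + 720 * s) + 6) ((1 + 720 * s) - 6) :=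
    ⟨(-5 + (3 - -5 * (60) * s) * 1), (-(3 - -5 * (60) * s)), by ring⟩
  have h24 : IsCoprime (((1 : ℤ) + 720 * s) + 6) ((1 + 720 * s) ^ 2 - 84) :=
    ⟨(7 + (-1 - 7 * (15) * s) * ((1 + 720 * s) - (6))), (-(-1 - 7 * (15) * s)), by ring⟩
  have h34 : IsCoprime (((1 : ℤ) + 720 * s) - 6) ((1 + 720 * s) ^ 2 - 84) :=
    ⟨(19 + (2 - 19 * (15) * s) * ((1 + 720 * s) - (-6))), (-(2 - 19 * (15) * s)), by ring⟩
  fin_cases i
  · fin_cases j
    · exact absurd rfl hij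
    · exact h01
    · exact h02
    · exact h03
    · exact h04
  · fin_cases j
    · exact h01.symm
    · exact absurd rfl hij
    · exact h12
    · exact h13
    · exact h14
  · fin_cases j
    · exact h02.symm
    · exact h12.symm
    · exact absurd rfl hij
    · exact h23
    · exact h24
  · fin_cases j
    · exact h03.symm
    · exact h13.symm
    · exact h23.symm
    · exact absurd rfl hij
    · exact h34
  · fin_cases j
    · exact h04.symm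
    · exact h14.symm
    · exact h24.symm
    · exact h34.symm
    · exact absurd rfl hij

lemma abs_div_bound6 (x d : ℝ) (n : ℕ) (c : ℝ) (hx0 : 0 < x) (hd : |d| ≤ c * |x| ^ (n + 1)) :
    |1 / x * d| ≤ c * x ^ n := by
  rw [abs_mul, abs_of_pos (by positivity : 0 < 1 / x)]
  rw [abs_of_pos hx0] at hd
  calc 1 / x * |d| ≤ 1 / x * (c * x ^ (n + 1)) := by gcongr
    _ = c * x ^ n := by field_simp; ring

/-- the expansion of the logarithm of the product. -/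
lemma G6_bound (x : ℝ) (hx0 : 0 < x) (hx : x ≤ 1 / 2) :
    |(-392) * (Real.log (1 + x) + Real.log (1 - x))
      - 420 * (1 / x * (Real.log (1 + x) - Real.log (1 - x)))
      + 350 * (Real.log (1 + x / 2) + Real.log (1 - x / 2))
      + 840 * (1 / x * (Real.log (1 + x / 2) - Real.log (1 - x / 2)))
      + 162 * Real.log (1 - 7 / 12 * x ^ 2) + 7 / 48 * x ^ 10|
      ≤ 10 ^ 4 * x ^ 12 := by
  have hax : |x| ≤ 1 / 2 := by rw [abs_of_pos hx0]; exact hx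
  have hax2 : |x / 2| ≤ 1 / 2 := by rw [abs_of_pos (by positivity)]; linarith
  have hs1 : Real.log (1 + x) + Real.log (1 - x) = Real.log (1 - 1 * x ^ 2) := by
    rw [← Real.log_mul (by linarith) (by linarith)]
    congr 1; ring
  have hs2 : Real.log (1 + x / 2) + Real.log (1 - x / 2) = Real.log (1 - 1 / 4 * x ^ 2) := by
    rw [← Real.log_mul (by linarith) (by linarith)]
    congr 1; ring
  obtain ⟨e1, h1, b1⟩ := log_sq10 1 x (by norm_num) hax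
  obtain ⟨e2, h2, b2⟩ := log_sq10 (1 / 4) x (by norm_num [abs_le]) hax
  obtain ⟨e3, h3, b3⟩ := log_sq10 (7 / 12) x (by norm_num [abs_le]) hax
  obtain ⟨d1, k1, c1⟩ := log_diff12 x hax
  obtain ⟨d2, k2, c2⟩ := log_diff12 (x / 2) hax2
  have c1' := abs_div_bound6 x d1 12 4 hx0 c1
  have c2' : |1 / x * d2| ≤ 4 * x ^ 12 := by
    refine abs_div_bound6 x d2 12 4 hx0 (c2.trans ?_)
    have : |x / 2| ≤ |x| := by
      rw [abs_of_pos (by positivity : 0 < x / 2), abs_of_pos hx0]; linarith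
    gcongr
  rw [abs_of_pos hx0] at b1 b2 b3
  rw [hs1, hs2, h1, h2, h3, k1, k2]
  have key : (-392) * (-(1 * x ^ 2 + (1 * x ^ 2) ^ 2 / 2 + (1 * x ^ 2) ^ 3 / 3
        + (1 * x ^ 2) ^ 4 / 4 + (1 * x ^ 2) ^ 5 / 5) + e1)
      - 420 * (1 / x * (2 * x * (1 + x ^ 2 / 3 + x ^ 4 / 5 + x ^ 6 / 7 + x ^ 8 / 9
        + x ^ 10 / 11) + d1))
      + 350 * (-(1 / 4 * x ^ 2 + (1 / 4 * x ^ 2) ^ 2 / 2 + (1 / 4 * x ^ 2) ^ 3 / 3
        + (1 / 4 * x ^ 2) ^ 4 / 4 + (1 / 4 * x ^ 2) ^ 5 / 5) + e2)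
      + 840 * (1 / x * (2 * (x / 2) * (1 + (x / 2) ^ 2 / 3 + (x / 2) ^ 4 / 5
        + (x / 2) ^ 6 / 7 + (x / 2) ^ 8 / 9 + (x / 2) ^ 10 / 11) + d2))
      + 162 * (-(7 / 12 * x ^ 2 + (7 / 12 * x ^ 2) ^ 2 / 2 + (7 / 12 * x ^ 2) ^ 3 / 3
        + (7 / 12 * x ^ 2) ^ 4 / 4 + (7 / 12 * x ^ 2) ^ 5 / 5) + e3)
      + 7 / 48 * x ^ 10
      = (-392) * e1 - 420 * (1 / x * d1) + 350 * e2 + 840 * (1 / x * d2) + 162 * e3 := by
    field_simp
    ring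
  rw [key]
  have hx12 : 0 < x ^ 12 := by positivity
  rw [abs_le] at b1 b2 b3 c1' c2'
  rw [abs_le]
  constructor <;> linarith [b1.1, b1.2, b2.1, b2.2, b3.1, b3.2, c1'.1, c1'.2, c2'.1, c2'.2]

lemma F6_eq (t : ℤ) (ht : 10 ^ 7 ≤ t) :
    ((-240 : ℤ) : ℝ) * Real.log t + ∑ i, ((E6 i t : ℤ) : ℝ) * Real.log ((A6 i t : ℤ) : ℝ)
      = (-392) * (Real.log (1 + 12 / (t : ℝ)) + Real.log (1 - 12 / (t : ℝ)))
      - 420 * (1 / (12 / (t : ℝ)) *
          (Real.log (1 + 12 / (t : ℝ)) - Real.log (1 - 12 / (t : ℝ))))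
      + 350 * (Real.log (1 + 12 / (t : ℝ) / 2) + Real.log (1 - 12 / (t : ℝ) / 2))
      + 840 * (1 / (12 / (t : ℝ)) *
          (Real.log (1 + 12 / (t : ℝ) / 2) - Real.log (1 - 12 / (t : ℝ) / 2)))
      + 162 * Real.log (1 - 7 / 12 * (12 / (t : ℝ)) ^ 2) := by
  have hT : (10 : ℝ) ^ 7 ≤ (t : ℝ) := by exact_mod_cast ht
  set T : ℝ := (t : ℝ) with hTdef
  have hT0 : 0 < T := by linarith [show (0 : ℝ) < 10 ^ 7 by norm_num]
  have hx0 : 0 < 12 / T := by positivity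
  have hx : 12 / T ≤ 1 / 10 := by rw [div_le_iff₀ hT0]; linarith
  have hx2 : (12 / T) ^ 2 ≤ 1 / 10 := by nlinarith
  have hx2' : 0 ≤ (12 / T) ^ 2 := by positivity
  have l1 : Real.log ((A6 0 t : ℤ) : ℝ) = Real.log T + Real.log (1 + 12 / T) := by
    rw [← Real.log_mul hT0.ne' (by linarith)]
    congr 1; simp [A6]; field_simp; rw [hTdef]
  have l2 : Real.log ((A6 1 t : ℤ) : ℝ) = Real.log T + Real.log (1 - 12 / T) := by
    rw [← Real.log_mul hT0.ne' (by linarith)]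
    congr 1; simp [A6]; field_simp; rw [hTdef]
  have l3 : Real.log ((A6 2 t : ℤ) : ℝ) = Real.log T + Real.log (1 + 12 / T / 2) := by
    rw [← Real.log_mul hT0.ne' (by linarith)]
    congr 1; simp [A6]; field_simp; ring
  have l4 : Real.log ((A6 3 t : ℤ) : ℝ) = Real.log T + Real.log (1 - 12 / T / 2) := by
    rw [← Real.log_mul hT0.ne' (by linarith)]
    congr 1; simp [A6]; field_simp; ring
  have l5 : Real.log ((A6 4 t : ℤ) : ℝ)
      = 2 * Real.log T + Real.log (1 - 7 / 12 * (12 / T) ^ 2) := by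
    rw [two_mul, ← Real.log_mul hT0.ne' hT0.ne', ← Real.log_mul (by positivity) (by linarith)]
    congr 1; simp [A6]; field_simp; ring
  have q1 : ((E6 0 t : ℤ) : ℝ) = -392 - 35 * T := by simp [E6, hTdef]
  have q2 : ((E6 1 t : ℤ) : ℝ) = -392 + 35 * T := by simp [E6, hTdef]
  have q3 : ((E6 2 t : ℤ) : ℝ) = 350 + 70 * T := by simp [E6, hTdef]
  have q4 : ((E6 3 t : ℤ) : ℝ) = 350 - 70 * T := by simp [E6, hTdef]
  have q5 : ((E6 4 t : ℤ) : ℝ) = 162 := by simp [E6]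
  have hinv : 1 / (12 / T) = T / 12 := by field_simp
  rw [Fin.sum_univ_five, l1, l2, l3, l4, l5, q1, q2, q3, q4, q5, hinv]
  push_cast
  ring

lemma F6_main (t : ℤ) (ht : 10 ^ 7 ≤ t) :
    ((-240 : ℤ) : ℝ) * Real.log t + ∑ i, ((E6 i t : ℤ) : ℝ) * Real.log ((A6 i t : ℤ) : ℝ) ≠ 0
    ∧ |((-240 : ℤ) : ℝ) * Real.log t
        + ∑ i, ((E6 i t : ℤ) : ℝ) * Real.log ((A6 i t : ℤ) : ℝ)|
      ≤ 10 ^ 40 * ((t : ℝ) ^ 10)⁻¹ := by
  have hT : (10 : ℝ) ^ 7 ≤ (t : ℝ) := by exact_mod_cast ht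
  have hT0 : 0 < (t : ℝ) := by linarith [show (0 : ℝ) < 10 ^ 7 by norm_num]
  have hx0 : 0 < 12 / (t : ℝ) := by positivity
  have hx : 12 / (t : ℝ) ≤ 1 / 10 ^ 5 := by
    rw [div_le_div_iff₀ hT0 (by norm_num)]; linarith
  have hb := G6_bound (12 / (t : ℝ)) hx0 (by linarith)
  rw [← F6_eq t ht] at hb
  set F : ℝ := ((-240 : ℤ) : ℝ) * Real.log t
    + ∑ i, ((E6 i t : ℤ) : ℝ) * Real.log ((A6 i t : ℤ) : ℝ) with hF
  set x : ℝ := 12 / (t : ℝ) with hxdef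
  have hx16 : 0 < x ^ 10 := by positivity
  have h18 : 10 ^ 4 * x ^ 12 ≤ 1 / 10 * x ^ 10 := by
    have : x ^ 12 = x ^ 2 * x ^ 10 := by ring
    rw [this, ← mul_assoc]
    refine mul_le_mul_of_nonneg_right ?_ hx16.le
    have : x ^ 2 ≤ (1 / 10 ^ 5) ^ 2 := by gcongr
    calc (10 : ℝ) ^ 4 * x ^ 2 ≤ 10 ^ 4 * (1 / 10 ^ 5) ^ 2 := by gcongr
      _ ≤ 1 / 10 := by norm_num
  rw [abs_le] at hb
  have hpos : F < 0 := by nlinarith [hb.1, hb.2]
  refine ⟨hpos.ne, ?_⟩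
  rw [abs_of_neg hpos]
  have h1 : -F ≤ 1 * x ^ 10 := by nlinarith [hb.1, hb.2]
  have h2 : x ^ 10 = 12 ^ 10 * ((t : ℝ) ^ 10)⁻¹ := by
    rw [hxdef, div_pow, div_eq_mul_inv]
  have h3 : 0 < ((t : ℝ) ^ 10)⁻¹ := by positivity
  rw [h2] at h1
  calc -F ≤ 1 * (12 ^ 10 * ((t : ℝ) ^ 10)⁻¹) := h1
    _ = (12 ^ 10) * ((t : ℝ) ^ 10)⁻¹ := by ring
    _ ≤ 10 ^ 40 * ((t : ℝ) ^ 10)⁻¹ := by
      refine mul_le_mul_of_nonneg_right (by norm_num) h3.le

lemma A6_gt (t : ℤ) (ht : 10 ^ 7 ≤ t) (i : Fin 5) : 1 < A6 i t := by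
  have h2 : (10 ^ 7) ^ 2 ≤ t ^ 2 := by gcongr
  fin_cases i <;> simp [A6] <;> omega

lemma E6_ne (t : ℤ) (ht : 10 ^ 7 ≤ t) (i : Fin 5) : E6 i t ≠ 0 := by
  fin_cases i <;> simp [E6] <;> omega

lemma A6_prime (p : ℕ) (hp : p.Prime) (hp0 : 84 < p) (t : ℤ) (ht : (p : ℤ) ∣ t) (i : Fin 5) :
    IsCoprime (p : ℤ) (A6 i t) := by
  obtain ⟨s, rfl⟩ := ht
  have key : ∀ c : ℤ, c ≠ 0 → |c| ≤ 84 → IsCoprime (p : ℤ) c := by
    intro c hc0 hc
    rw [Int.isCoprime_iff_gcd_eq_one]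
    have h1 : Nat.Coprime p c.natAbs := by
      rw [Nat.Prime.coprime_iff_not_dvd hp]
      intro h
      have h2 := Nat.le_of_dvd (Int.natAbs_pos.mpr hc0) h
      have h3 : (c.natAbs : ℤ) = |c| := Int.natCast_natAbs c
      omega
    simpa [Int.gcd] using h1
  fin_cases i
  · have := (key 12 (by norm_num) (by norm_num)).add_mul_left_right s
    simpa [A6, add_comm] using this
  · have := (key (-12) (by norm_num) (by norm_num)).add_mul_left_right s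
    simpa [A6, add_comm, sub_eq_add_neg] using this
  · have := (key 6 (by norm_num) (by norm_num)).add_mul_left_right s
    simpa [A6, add_comm] using this
  · have := (key (-6) (by norm_num) (by norm_num)).add_mul_left_right s
    simpa [A6, add_comm, sub_eq_add_neg] using this
  · have := (key (-84) (by norm_num) (by norm_num)).add_mul_left_right (s * (p * s))
    have h2 : A6 4 ((p : ℤ) * s) = -84 + (p : ℤ) * (s * (p * s)) := by simp [A6]; ring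
    exact h2 ▸ this

lemma height6 (t : ℤ) (ht : 10 ^ 7 ≤ t) :
    (∏ i, |((E6 i t : ℤ) : ℝ)|) * (∏ i, |((A6 i t : ℤ) : ℝ)|) ≤ 10 ^ 40 * (t : ℝ) ^ 10 := by
  have hT : (10 : ℝ) ^ 7 ≤ (t : ℝ) := by exact_mod_cast ht
  have hT0 : 0 < (t : ℝ) := by linarith [show (0 : ℝ) < 10 ^ 7 by norm_num]
  rw [Fin.prod_univ_five, Fin.prod_univ_five]
  have a0 : |((A6 0 t : ℤ) : ℝ)| ≤ 2 * t := by simp [A6]; rw [abs_le]; constructor <;> linarith
  have a1 : |((A6 1 t : ℤ) : ℝ)| ≤ 2 * t := by simp [A6]; rw [abs_le]; constructor <;> linarith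
  have a2 : |((A6 2 t : ℤ) : ℝ)| ≤ 2 * t := by simp [A6]; rw [abs_le]; constructor <;> linarith
  have a3 : |((A6 3 t : ℤ) : ℝ)| ≤ 2 * t := by simp [A6]; rw [abs_le]; constructor <;> linarith
  have a4 : |((A6 4 t : ℤ) : ℝ)| ≤ (t : ℝ) ^ 2 := by
    simp [A6]; rw [abs_le]; constructor <;> nlinarith
  have e0 : |((E6 0 t : ℤ) : ℝ)| ≤ 10 ^ 3 * t := by
    simp [E6]; rw [abs_le]; constructor <;> linarith
  have e1 : |((E6 1 t : ℤ) : ℝ)| ≤ 10 ^ 3 * t := by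
    simp [E6]; rw [abs_le]; constructor <;> linarith
  have e2 : |((E6 2 t : ℤ) : ℝ)| ≤ 10 ^ 3 * t := by
    simp [E6]; rw [abs_le]; constructor <;> linarith
  have e3 : |((E6 3 t : ℤ) : ℝ)| ≤ 10 ^ 3 * t := by
    simp [E6]; rw [abs_le]; constructor <;> linarith
  have e4 : |((E6 4 t : ℤ) : ℝ)| ≤ 10 ^ 3 := by simp [E6]; norm_num
  calc _ ≤ (10 ^ 3 * t * (10 ^ 3 * t) * (10 ^ 3 * t) * (10 ^ 3 * t) * 10 ^ 3) *
        (2 * t * (2 * t) * (2 * t) * (2 * t) * (t : ℝ) ^ 2) := by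
        gcongr
    _ = (10 ^ 15 * 16) * (t : ℝ) ^ 10 := by ring
    _ ≤ 10 ^ 40 * (t : ℝ) ^ 10 := by
        refine mul_le_mul_of_nonneg_right (by norm_num) (by positivity)

theorem six (s : ℕ) (θ ε : ℝ) (hε : 0 ≤ ε) (hlt : 10 * ε < θ) (C : ℝ) (hC : 0 < C) :
    ∃ a b : Fin (5 + (s + 1)) → ℤ, (∀ i, 1 < a i) ∧
      (Pairwise fun i j => IsCoprime (a i) (a j)) ∧ (∀ i, b i ≠ 0) ∧
      (∏ i, ((a i : ℝ) ^ (b i))) ≠ 1 ∧
      |(∏ i, ((a i : ℝ) ^ (b i))) - 1|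
        < C * ((Finset.univ.sup fun i => (b i).natAbs : ℕ) : ℝ) ^ θ /
          ((∏ i, |((b i : ℤ) : ℝ)|) * (∏ i, |((a i : ℤ) : ℝ)|)) ^ (1 + ε) := by
  refine assemble A6 E6 (-240) (by norm_num) 10 10 (10 ^ 40) 720 84 (by norm_num)
    (10 ^ 7) (by norm_num) (by norm_num) A6_gt E6_ne A6_coprime ?_ height6 ?_ ?_ F6_main
    (by norm_num) s θ ε hε (by push_cast; linarith) C hC
  · exact fun p hp hp0 t ht i => A6_prime p hp hp0 t ht i
  · intro t ht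
    have hT : (10 : ℝ) ^ 7 ≤ (t : ℝ) := by exact_mod_cast ht
    refine ⟨0, ?_⟩
    simp [E6]
    rw [le_abs]
    right; linarith
  · intro t ht i
    have hT : (10 : ℝ) ^ 7 ≤ (t : ℝ) := by exact_mod_cast ht
    fin_cases i <;> simp [E6] <;> (try rw [abs_le]) <;> (try constructor) <;> linarith

end Pool.Agent.H473.LW
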