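import Pool.Agent.H473.LW.Gen
import Pool.Agent.H473.LW.Ser

/-!
# The family of eight integers
-/

set_option autoImplicit false

namespace Pool.Agent.H473.LW

open Finset

/-- the values of the seven polynomials. -/
def A8 (i : Fin 7) (t : ℤ) : ℤ :=
  (![t + 60, t - 60, t + 30, t - 30, t ^ 2 - 540, t ^ 2 - 2250, t ^ 2 - 3300] : Fin 7 → ℤ) i

/-- the exponents. -/
def E8 (i : Fin 7) (t : ℤ) : ℤ :=
  (![-308224840 - 5148297 * t, -308224840 + 5148297 * t, 409003595 + 10296594 * t,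
    409003595 - 10296594 * t, -144375000, 70467584, 31788045] : Fin 7 → ℤ) i

lemma A8_coprime (t : ℤ) (ht : ((1123264800 : ℕ) : ℤ) ∣ t - 1) (i j : Fin 7) (hij : i ≠ j) :
    IsCoprime (A8 i t) (A8 j t) := by
  obtain ⟨s, hs⟩ := ht
  have hs2 : t = 1 + 1123264800 * s := by push_cast at hs; linarith
  subst hs2
  clear hs
  have h01 : IsCoprime (((1 : ℤ) + 1123264800 * s) + 60) ((1 + 1123264800 * s) - 60) :=
    ⟨(-59 + (30 - -59 * (9360540) * s) * 1), (-(30 - -59 * (9360540) * s)), by ring⟩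
  have h02 : IsCoprime (((1 : ℤ) + 1123264800 * s) + 60) ((1 + 1123264800 * s) + 30) :=
    ⟨(1 + (-2 - 1 * (37442160) * s) * 1), (-(-2 - 1 * (37442160) * s)), by ring⟩
  have h03 : IsCoprime (((1 : ℤ) + 1123264800 * s) + 60) ((1 + 1123264800 * s) - 30) :=
    ⟨(31 + (-21 - 31 * (12480720) * s) * 1), (-(-21 - 31 * (12480720) * s)), by ring⟩
  have h04 : IsCoprime (((1 : ℤ) + 1123264800 * s) + 60) ((1 + 1123264800 * s) ^ 2 - 540) :=
    ⟨(301 + (6 - 301 * (-367080) * s) * ((1 + 1123264800 * s) - (60))), (-(6 - 301 * (-367080) * s)), by ring⟩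
  have h05 : IsCoprime (((1 : ℤ) + 1123264800 * s) + 60) ((1 + 1123264800 * s) ^ 2 - 2250) :=
    ⟨(-509 + (-23 - -509 * (-832048) * s) * ((1 + 1123264800 * s) - (60))), (-(-23 - -509 * (-832048) * s)), by ring⟩
  have h06 : IsCoprime (((1 : ℤ) + 1123264800 * s) + 60) ((1 + 1123264800 * s) ^ 2 - 3300) :=
    ⟨(-59 + (-12 - -59 * (-3744216) * s) * ((1 + 1123264800 * s) - (60))), (-(-12 - -59 * (-3744216) * s)), by ring⟩
  have h12 : IsCoprime (((1 : ℤ) + 1123264800 * s) - 60) ((1 + 1123264800 * s) + 30) :=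
    ⟨(-29 + (19 - -29 * (-12480720) * s) * 1), (-(19 - -29 * (-12480720) * s)), by ring⟩
  have h13 : IsCoprime (((1 : ℤ) + 1123264800 * s) - 60) ((1 + 1123264800 * s) - 30) :=
    ⟨(1 + (-2 - 1 * (-37442160) * s) * 1), (-(-2 - 1 * (-37442160) * s)), by ring⟩
  have h14 : IsCoprime (((1 : ℤ) + 1123264800 * s) - 60) ((1 + 1123264800 * s) ^ 2 - 540) :=
    ⟨(1141 + (-22 - 1141 * (-367080) * s) * ((1 + 1123264800 * s) - (-60))), (-(-22 - 1141 * (-367080) * s)), by ring⟩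
  have h15 : IsCoprime (((1 : ℤ) + 1123264800 * s) - 60) ((1 + 1123264800 * s) ^ 2 - 2250) :=
    ⟨(-389 + (17 - -389 * (-832048) * s) * ((1 + 1123264800 * s) - (-60))), (-(17 - -389 * (-832048) * s)), by ring⟩
  have h16 : IsCoprime (((1 : ℤ) + 1123264800 * s) - 60) ((1 + 1123264800 * s) ^ 2 - 3300) :=
    ⟨(61 + (-12 - 61 * (-3744216) * s) * ((1 + 1123264800 * s) - (-60))), (-(-12 - 61 * (-3744216) * s)), by ring⟩
  have h23 : IsCoprime (((1 : ℤ) + 1123264800 * s) + 30) ((1 + 1123264800 * s) - 30) :=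
    ⟨(-29 + (15 - -29 * (18721080) * s) * 1), (-(15 - -29 * (18721080) * s)), by ring⟩
  have h24 : IsCoprime (((1 : ℤ) + 1123264800 * s) + 30) ((1 + 1123264800 * s) ^ 2 - 540) :=
    ⟨(151 + (13 - 151 * (-3120180) * s) * ((1 + 1123264800 * s) - (30))), (-(13 - 151 * (-3120180) * s)), by ring⟩
  have h25 : IsCoprime (((1 : ℤ) + 1123264800 * s) + 30) ((1 + 1123264800 * s) ^ 2 - 2250) :=
    ⟨(-479 + (11 - -479 * (832048) * s) * ((1 + 1123264800 * s) - (30))), (-(11 - -479 * (832048) * s)), by ring⟩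
  have h26 : IsCoprime (((1 : ℤ) + 1123264800 * s) + 30) ((1 + 1123264800 * s) ^ 2 - 3300) :=
    ⟨(-929 + (12 - -929 * (468027) * s) * ((1 + 1123264800 * s) - (30))), (-(12 - -929 * (468027) * s)), by ring⟩
  have h34 : IsCoprime (((1 : ℤ) + 1123264800 * s) - 30) ((1 + 1123264800 * s) ^ 2 - 540) :=
    ⟨(-149 + (12 - -149 * (-3120180) * s) * ((1 + 1123264800 * s) - (-30))), (-(12 - -149 * (-3120180) * s)), by ring⟩
  have h35 : IsCoprime (((1 : ℤ) + 1123264800 * s) - 30) ((1 + 1123264800 * s) ^ 2 - 2250) :=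
    ⟨(-419 + (-9 - -419 * (832048) * s) * ((1 + 1123264800 * s) - (-30))), (-(-9 - -419 * (832048) * s)), by ring⟩
  have h36 : IsCoprime (((1 : ℤ) + 1123264800 * s) - 30) ((1 + 1123264800 * s) ^ 2 - 3300) :=
    ⟨(331 + (4 - 331 * (468027) * s) * ((1 + 1123264800 * s) - (-30))), (-(4 - 331 * (468027) * s)), by ring⟩
  have h45 : IsCoprime (((1 : ℤ) + 1123264800 * s) ^ 2 - 540) ((1 + 1123264800 * s) ^ 2 - 2250) :=
    ⟨(-809 + (-255 - -809 * (656880) * (2 * s + 1123264800 * s ^ 2)) * 1), (-(-255 - -809 * (656880) * (2 * s + 1123264800 * s ^ 2))), by ring⟩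
  have h46 : IsCoprime (((1 : ℤ) + 1123264800 * s) ^ 2 - 540) ((1 + 1123264800 * s) ^ 2 - 3300) :=
    ⟨(-1019 + (-199 - -1019 * (406980) * (2 * s + 1123264800 * s ^ 2)) * 1), (-(-199 - -1019 * (406980) * (2 * s + 1123264800 * s ^ 2))), by ring⟩
  have h56 : IsCoprime (((1 : ℤ) + 1123264800 * s) ^ 2 - 2250) ((1 + 1123264800 * s) ^ 2 - 3300) :=
    ⟨(451 + (966 - 451 * (1069776) * (2 * s + 1123264800 * s ^ 2)) * 1), (-(966 - 451 * (1069776) * (2 * s + 1123264800 * s ^ 2))), by ring⟩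
  fin_cases i
  · fin_cases j
    · exact absurd rfl hij
    · exact h01
    · exact h02
    · exact h03
    · exact h04
    · exact h05
    · exact h06
  · fin_cases j
    · exact h01.symm
    · exact absurd rfl hij
    · exact h12
    · exact h13
    · exact h14
    · exact h15
    · exact h16
  · fin_cases j
    · exact h02.symm
    · exact h12.symm
    · exact absurd rfl hij
    · exact h23
    · exact h24
    · exact h25
    · exact h26
  · fin_cases j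
    · exact h03.symm
    · exact h13.symm
    · exact h23.symm
    · exact absurd rfl hij
    · exact h34
    · exact h35
    · exact h36
  · fin_cases j
    · exact h04.symm
    · exact h14.symm
    · exact h24.symm
    · exact h34.symm
    · exact absurd rfl hij
    · exact h45
    · exact h46
  · fin_cases j
    · exact h05.symm
    · exact h15.symm
    · exact h25.symm
    · exact h35.symm
    · exact h45.symm
    · exact absurd rfl hij
    · exact h56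
  · fin_cases j
    · exact h06.symm
    · exact h16.symm
    · exact h26.symm
    · exact h36.symm
    · exact h46.symm
    · exact h56.symm
    · exact absurd rfl hij

lemma abs_div_bound (x d : ℝ) (n : ℕ) (c : ℝ) (hx0 : 0 < x) (hd : |d| ≤ c * |x| ^ (n + 1)) :
    |1 / x * d| ≤ c * x ^ n := by
  rw [abs_mul, abs_of_pos (by positivity : 0 < 1 / x)]
  rw [abs_of_pos hx0] at hd
  calc 1 / x * |d| ≤ 1 / x * (c * x ^ (n + 1)) := by gcongr
    _ = c * x ^ n := by field_simp; ring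

/-- the expansion of the logarithm of the product. -/
lemma G8_bound (x : ℝ) (hx0 : 0 < x) (hx : x ≤ 1 / 2) :
    |(-308224840) * (Real.log (1 + x) + Real.log (1 - x))
      - 308897820 * (1 / x * (Real.log (1 + x) - Real.log (1 - x)))
      + 409003595 * (Real.log (1 + x / 2) + Real.log (1 - x / 2))
      + 617795640 * (1 / x * (Real.log (1 + x / 2) - Real.log (1 - x / 2)))
      - 144375000 * Real.log (1 - 3 / 20 * x ^ 2) + 70467584 * Real.log (1 - 5 / 8 * x ^ 2)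
      + 31788045 * Real.log (1 - 11 / 12 * x ^ 2) - 39470277 / 40960 * x ^ 16|
      ≤ 10 ^ 10 * x ^ 18 := by
  have hax : |x| ≤ 1 / 2 := by rw [abs_of_pos hx0]; exact hx
  have hax2 : |x / 2| ≤ 1 / 2 := by rw [abs_of_pos (by positivity)]; linarith
  have hs1 : Real.log (1 + x) + Real.log (1 - x) = Real.log (1 - 1 * x ^ 2) := by
    rw [← Real.log_mul (by linarith) (by linarith)]
    congr 1; ring
  have hs2 : Real.log (1 + x / 2) + Real.log (1 - x / 2) = Real.log (1 - 1 / 4 * x ^ 2) := by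
    rw [← Real.log_mul (by linarith) (by linarith)]
    congr 1; ring
  obtain ⟨e1, h1, b1⟩ := log_sq16 1 x (by norm_num) hax
  obtain ⟨e2, h2, b2⟩ := log_sq16 (1 / 4) x (by norm_num [abs_le]) hax
  obtain ⟨e3, h3, b3⟩ := log_sq16 (3 / 20) x (by norm_num [abs_le]) hax
  obtain ⟨e4, h4, b4⟩ := log_sq16 (5 / 8) x (by norm_num [abs_le]) hax
  obtain ⟨e5, h5, b5⟩ := log_sq16 (11 / 12) x (by norm_num [abs_le]) hax
  obtain ⟨d1, k1, c1⟩ := log_diff18 x hax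
  obtain ⟨d2, k2, c2⟩ := log_diff18 (x / 2) hax2
  have c1' := abs_div_bound x d1 18 4 hx0 c1
  have c2' : |1 / x * d2| ≤ 4 * x ^ 18 := by
    refine abs_div_bound x d2 18 4 hx0 (c2.trans ?_)
    have : |x / 2| ≤ |x| := by
      rw [abs_of_pos (by positivity : 0 < x / 2), abs_of_pos hx0]; linarith
    gcongr
  rw [abs_of_pos hx0] at b1 b2 b3 b4 b5
  rw [hs1, hs2, h1, h2, h3, h4, h5, k1, k2]
  have key : (-308224840) * (-(1 * x ^ 2 + (1 * x ^ 2) ^ 2 / 2 + (1 * x ^ 2) ^ 3 / 3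
        + (1 * x ^ 2) ^ 4 / 4 + (1 * x ^ 2) ^ 5 / 5 + (1 * x ^ 2) ^ 6 / 6 + (1 * x ^ 2) ^ 7 / 7
        + (1 * x ^ 2) ^ 8 / 8) + e1)
      - 308897820 * (1 / x * (2 * x * (1 + x ^ 2 / 3 + x ^ 4 / 5 + x ^ 6 / 7 + x ^ 8 / 9
        + x ^ 10 / 11 + x ^ 12 / 13 + x ^ 14 / 15 + x ^ 16 / 17) + d1))
      + 409003595 * (-(1 / 4 * x ^ 2 + (1 / 4 * x ^ 2) ^ 2 / 2 + (1 / 4 * x ^ 2) ^ 3 / 3
        + (1 / 4 * x ^ 2) ^ 4 / 4 + (1 / 4 * x ^ 2) ^ 5 / 5 + (1 / 4 * x ^ 2) ^ 6 / 6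
        + (1 / 4 * x ^ 2) ^ 7 / 7 + (1 / 4 * x ^ 2) ^ 8 / 8) + e2)
      + 617795640 * (1 / x * (2 * (x / 2) * (1 + (x / 2) ^ 2 / 3 + (x / 2) ^ 4 / 5
        + (x / 2) ^ 6 / 7 + (x / 2) ^ 8 / 9 + (x / 2) ^ 10 / 11 + (x / 2) ^ 12 / 13
        + (x / 2) ^ 14 / 15 + (x / 2) ^ 16 / 17) + d2))
      - 144375000 * (-(3 / 20 * x ^ 2 + (3 / 20 * x ^ 2) ^ 2 / 2 + (3 / 20 * x ^ 2) ^ 3 / 3
        + (3 / 20 * x ^ 2) ^ 4 / 4 + (3 / 20 * x ^ 2) ^ 5 / 5 + (3 / 20 * x ^ 2) ^ 6 / 6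
        + (3 / 20 * x ^ 2) ^ 7 / 7 + (3 / 20 * x ^ 2) ^ 8 / 8) + e3)
      + 70467584 * (-(5 / 8 * x ^ 2 + (5 / 8 * x ^ 2) ^ 2 / 2 + (5 / 8 * x ^ 2) ^ 3 / 3
        + (5 / 8 * x ^ 2) ^ 4 / 4 + (5 / 8 * x ^ 2) ^ 5 / 5 + (5 / 8 * x ^ 2) ^ 6 / 6
        + (5 / 8 * x ^ 2) ^ 7 / 7 + (5 / 8 * x ^ 2) ^ 8 / 8) + e4)
      + 31788045 * (-(11 / 12 * x ^ 2 + (11 / 12 * x ^ 2) ^ 2 / 2 + (11 / 12 * x ^ 2) ^ 3 / 3
        + (11 / 12 * x ^ 2) ^ 4 / 4 + (11 / 12 * x ^ 2) ^ 5 / 5 + (11 / 12 * x ^ 2) ^ 6 / 6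
        + (11 / 12 * x ^ 2) ^ 7 / 7 + (11 / 12 * x ^ 2) ^ 8 / 8) + e5)
      - 39470277 / 40960 * x ^ 16
      = (-308224840) * e1 - 308897820 * (1 / x * d1) + 409003595 * e2
        + 617795640 * (1 / x * d2) - 144375000 * e3 + 70467584 * e4 + 31788045 * e5 := by
    field_simp
    ring
  rw [key]
  have hx18 : 0 < x ^ 18 := by positivity
  rw [abs_le] at b1 b2 b3 b4 b5 c1' c2'
  rw [abs_le]
  constructor <;> linarith [b1.1, b1.2, b2.1, b2.2, b3.1, b3.2, b4.1, b4.2, b5.1, b5.2,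
    c1'.1, c1'.2, c2'.1, c2'.2]

lemma F8_eq (t : ℤ) (ht : 10 ^ 7 ≤ t) :
    ((-117318768 : ℤ) : ℝ) * Real.log t + ∑ i, ((E8 i t : ℤ) : ℝ) * Real.log ((A8 i t : ℤ) : ℝ)
      = (-308224840) * (Real.log (1 + 60 / (t : ℝ)) + Real.log (1 - 60 / (t : ℝ)))
      - 308897820 * (1 / (60 / (t : ℝ)) *
          (Real.log (1 + 60 / (t : ℝ)) - Real.log (1 - 60 / (t : ℝ))))
      + 409003595 * (Real.log (1 + 60 / (t : ℝ) / 2) + Real.log (1 - 60 / (t : ℝ) / 2))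
      + 617795640 * (1 / (60 / (t : ℝ)) *
          (Real.log (1 + 60 / (t : ℝ) / 2) - Real.log (1 - 60 / (t : ℝ) / 2)))
      - 144375000 * Real.log (1 - 3 / 20 * (60 / (t : ℝ)) ^ 2)
      + 70467584 * Real.log (1 - 5 / 8 * (60 / (t : ℝ)) ^ 2)
      + 31788045 * Real.log (1 - 11 / 12 * (60 / (t : ℝ)) ^ 2) := by
  have hT : (10 : ℝ) ^ 7 ≤ (t : ℝ) := by exact_mod_cast ht
  set T : ℝ := (t : ℝ) with hTdef
  have hT0 : 0 < T := by linarith [show (0 : ℝ) < 10 ^ 7 by norm_num]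
  have hx0 : 0 < 60 / T := by positivity
  have hx : 60 / T ≤ 1 / 10 := by rw [div_le_iff₀ hT0]; linarith
  have hx2 : (60 / T) ^ 2 ≤ 1 / 10 := by nlinarith
  have hx2' : 0 ≤ (60 / T) ^ 2 := by positivity
  have l1 : Real.log ((A8 0 t : ℤ) : ℝ) = Real.log T + Real.log (1 + 60 / T) := by
    rw [← Real.log_mul hT0.ne' (by linarith)]
    congr 1; simp [A8]; field_simp; rw [hTdef]
  have l2 : Real.log ((A8 1 t : ℤ) : ℝ) = Real.log T + Real.log (1 - 60 / T) := by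
    rw [← Real.log_mul hT0.ne' (by linarith)]
    congr 1; simp [A8]; field_simp; rw [hTdef]
  have l3 : Real.log ((A8 2 t : ℤ) : ℝ) = Real.log T + Real.log (1 + 60 / T / 2) := by
    rw [← Real.log_mul hT0.ne' (by linarith)]
    congr 1; simp [A8]; field_simp; ring
  have l4 : Real.log ((A8 3 t : ℤ) : ℝ) = Real.log T + Real.log (1 - 60 / T / 2) := by
    rw [← Real.log_mul hT0.ne' (by linarith)]
    congr 1; simp [A8]; field_simp; ring
  have l5 : Real.log ((A8 4 t : ℤ) : ℝ) = 2 * Real.log T + Real.log (1 - 3 / 20 * (60 / T) ^ 2) := by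
    rw [two_mul, ← Real.log_mul hT0.ne' hT0.ne', ← Real.log_mul (by positivity) (by linarith)]
    congr 1; simp [A8]; field_simp; ring
  have l6 : Real.log ((A8 5 t : ℤ) : ℝ) = 2 * Real.log T + Real.log (1 - 5 / 8 * (60 / T) ^ 2) := by
    rw [two_mul, ← Real.log_mul hT0.ne' hT0.ne', ← Real.log_mul (by positivity) (by linarith)]
    congr 1; simp [A8]; field_simp; ring
  have l7 : Real.log ((A8 6 t : ℤ) : ℝ) = 2 * Real.log T + Real.log (1 - 11 / 12 * (60 / T) ^ 2) := by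
    rw [two_mul, ← Real.log_mul hT0.ne' hT0.ne', ← Real.log_mul (by positivity) (by linarith)]
    congr 1; simp [A8]; field_simp; ring
  have q1 : ((E8 0 t : ℤ) : ℝ) = -308224840 - 5148297 * T := by simp [E8, hTdef]
  have q2 : ((E8 1 t : ℤ) : ℝ) = -308224840 + 5148297 * T := by simp [E8, hTdef]
  have q3 : ((E8 2 t : ℤ) : ℝ) = 409003595 + 10296594 * T := by simp [E8, hTdef]
  have q4 : ((E8 3 t : ℤ) : ℝ) = 409003595 - 10296594 * T := by simp [E8, hTdef]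
  have q5 : ((E8 4 t : ℤ) : ℝ) = -144375000 := by simp [E8]
  have q6 : ((E8 5 t : ℤ) : ℝ) = 70467584 := by simp [E8]
  have q7 : ((E8 6 t : ℤ) : ℝ) = 31788045 := by simp [E8]
  have hinv : 1 / (60 / T) = T / 60 := by field_simp
  rw [Fin.sum_univ_seven, l1, l2, l3, l4, l5, l6, l7, q1, q2, q3, q4, q5, q6, q7, hinv]
  push_cast
  ring

lemma F8_main (t : ℤ) (ht : 10 ^ 7 ≤ t) :
    ((-117318768 : ℤ) : ℝ) * Real.log t + ∑ i, ((E8 i t : ℤ) : ℝ) * Real.log ((A8 i t : ℤ) : ℝ) ≠ 0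
    ∧ |((-117318768 : ℤ) : ℝ) * Real.log t
        + ∑ i, ((E8 i t : ℤ) : ℝ) * Real.log ((A8 i t : ℤ) : ℝ)|
      ≤ 10 ^ 61 * ((t : ℝ) ^ 16)⁻¹ := by
  have hT : (10 : ℝ) ^ 7 ≤ (t : ℝ) := by exact_mod_cast ht
  have hT0 : 0 < (t : ℝ) := by linarith [show (0 : ℝ) < 10 ^ 7 by norm_num]
  have hx0 : 0 < 60 / (t : ℝ) := by positivity
  have hx : 60 / (t : ℝ) ≤ 1 / 10 ^ 5 := by
    rw [div_le_div_iff₀ hT0 (by norm_num)]; linarith
  have hb := G8_bound (60 / (t : ℝ)) hx0 (by linarith)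
  rw [← F8_eq t ht] at hb
  set F : ℝ := ((-117318768 : ℤ) : ℝ) * Real.log t
    + ∑ i, ((E8 i t : ℤ) : ℝ) * Real.log ((A8 i t : ℤ) : ℝ) with hF
  set x : ℝ := 60 / (t : ℝ) with hxdef
  have hx16 : 0 < x ^ 16 := by positivity
  have h18 : 10 ^ 10 * x ^ 18 ≤ 1 * x ^ 16 := by
    have : x ^ 18 = x ^ 2 * x ^ 16 := by ring
    rw [this, ← mul_assoc]
    refine mul_le_mul_of_nonneg_right ?_ hx16.le
    have : x ^ 2 ≤ (1 / 10 ^ 5) ^ 2 := by gcongr
    calc (10 : ℝ) ^ 10 * x ^ 2 ≤ 10 ^ 10 * (1 / 10 ^ 5) ^ 2 := by gcongr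
      _ = 1 := by norm_num
  rw [abs_le] at hb
  have hpos : 0 < F := by nlinarith [hb.1, hb.2]
  refine ⟨hpos.ne', ?_⟩
  rw [abs_of_pos hpos]
  have h1 : F ≤ 1000 * x ^ 16 := by nlinarith [hb.1, hb.2]
  have h2 : x ^ 16 = 60 ^ 16 * ((t : ℝ) ^ 16)⁻¹ := by
    rw [hxdef, div_pow, div_eq_mul_inv]
  have h3 : 0 < ((t : ℝ) ^ 16)⁻¹ := by positivity
  rw [h2] at h1
  calc F ≤ 1000 * (60 ^ 16 * ((t : ℝ) ^ 16)⁻¹) := h1
    _ = (1000 * 60 ^ 16) * ((t : ℝ) ^ 16)⁻¹ := by ring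
    _ ≤ 10 ^ 61 * ((t : ℝ) ^ 16)⁻¹ := by
      refine mul_le_mul_of_nonneg_right (by norm_num) h3.le

lemma A8_gt (t : ℤ) (ht : 10 ^ 7 ≤ t) (i : Fin 7) : 1 < A8 i t := by
  have h2 : (10 ^ 7) ^ 2 ≤ t ^ 2 := by gcongr
  fin_cases i <;> simp [A8] <;> omega

lemma E8_ne (t : ℤ) (ht : 10 ^ 7 ≤ t) (i : Fin 7) : E8 i t ≠ 0 := by
  fin_cases i <;> simp [E8] <;> omega

lemma A8_prime (p : ℕ) (hp : p.Prime) (hp0 : 3300 < p) (t : ℤ) (ht : (p : ℤ) ∣ t) (i : Fin 7) :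
    IsCoprime (p : ℤ) (A8 i t) := by
  obtain ⟨s, rfl⟩ := ht
  have key : ∀ c : ℤ, c ≠ 0 → |c| ≤ 3300 → IsCoprime (p : ℤ) c := by
    intro c hc0 hc
    rw [Int.isCoprime_iff_gcd_eq_one]
    have h1 : Nat.Coprime p c.natAbs := by
      rw [Nat.Prime.coprime_iff_not_dvd hp]
      intro h
      have h2 := Nat.le_of_dvd (Int.natAbs_pos.mpr hc0) h
      have h3 : (c.natAbs : ℤ) = |c| := Int.natCast_natAbs c
      omega
    simpa [Int.gcd] using h1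
  fin_cases i
  · have := (key 60 (by norm_num) (by norm_num)).add_mul_left_right s
    simpa [A8, add_comm] using this
  · have := (key (-60) (by norm_num) (by norm_num)).add_mul_left_right s
    simpa [A8, add_comm, sub_eq_add_neg] using this
  · have := (key 30 (by norm_num) (by norm_num)).add_mul_left_right s
    simpa [A8, add_comm] using this
  · have := (key (-30) (by norm_num) (by norm_num)).add_mul_left_right s
    simpa [A8, add_comm, sub_eq_add_neg] using this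
  · have := (key (-540) (by norm_num) (by norm_num)).add_mul_left_right (s * (p * s))
    have h2 : A8 4 ((p : ℤ) * s) = -540 + (p : ℤ) * (s * (p * s)) := by simp [A8]; ring
    exact h2 ▸ this
  · have := (key (-2250) (by norm_num) (by norm_num)).add_mul_left_right (s * (p * s))
    have h2 : A8 5 ((p : ℤ) * s) = -2250 + (p : ℤ) * (s * (p * s)) := by simp [A8]; ring
    exact h2 ▸ this
  · have := (key (-3300) (by norm_num) (by norm_num)).add_mul_left_right (s * (p * s))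
    have h2 : A8 6 ((p : ℤ) * s) = -3300 + (p : ℤ) * (s * (p * s)) := by simp [A8]; ring
    exact h2 ▸ this

lemma height8 (t : ℤ) (ht : 10 ^ 7 ≤ t) :
    (∏ i, |((E8 i t : ℤ) : ℝ)|) * (∏ i, |((A8 i t : ℤ) : ℝ)|) ≤ 10 ^ 61 * (t : ℝ) ^ 14 := by
  have hT : (10 : ℝ) ^ 7 ≤ (t : ℝ) := by exact_mod_cast ht
  have hT0 : 0 < (t : ℝ) := by linarith [show (0 : ℝ) < 10 ^ 7 by norm_num]
  rw [Fin.prod_univ_seven, Fin.prod_univ_seven]
  have a0 : |((A8 0 t : ℤ) : ℝ)| ≤ 2 * t := by simp [A8]; rw [abs_le]; constructor <;> linarith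
  have a1 : |((A8 1 t : ℤ) : ℝ)| ≤ 2 * t := by simp [A8]; rw [abs_le]; constructor <;> linarith
  have a2 : |((A8 2 t : ℤ) : ℝ)| ≤ 2 * t := by simp [A8]; rw [abs_le]; constructor <;> linarith
  have a3 : |((A8 3 t : ℤ) : ℝ)| ≤ 2 * t := by simp [A8]; rw [abs_le]; constructor <;> linarith
  have a4 : |((A8 4 t : ℤ) : ℝ)| ≤ (t : ℝ) ^ 2 := by
    simp [A8]; rw [abs_le]; constructor <;> nlinarith
  have a5 : |((A8 5 t : ℤ) : ℝ)| ≤ (t : ℝ) ^ 2 := by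
    simp [A8]; rw [abs_le]; constructor <;> nlinarith
  have a6 : |((A8 6 t : ℤ) : ℝ)| ≤ (t : ℝ) ^ 2 := by
    simp [A8]; rw [abs_le]; constructor <;> nlinarith
  have e0 : |((E8 0 t : ℤ) : ℝ)| ≤ 10 ^ 8 * t := by
    simp [E8]; rw [abs_le]; constructor <;> linarith
  have e1 : |((E8 1 t : ℤ) : ℝ)| ≤ 10 ^ 8 * t := by
    simp [E8]; rw [abs_le]; constructor <;> linarith
  have e2 : |((E8 2 t : ℤ) : ℝ)| ≤ 10 ^ 8 * t := by
    simp [E8]; rw [abs_le]; constructor <;> linarith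
  have e3 : |((E8 3 t : ℤ) : ℝ)| ≤ 10 ^ 8 * t := by
    simp [E8]; rw [abs_le]; constructor <;> linarith
  have e4 : |((E8 4 t : ℤ) : ℝ)| ≤ 10 ^ 9 := by simp [E8]; norm_num
  have e5 : |((E8 5 t : ℤ) : ℝ)| ≤ 10 ^ 9 := by simp [E8]; norm_num
  have e6 : |((E8 6 t : ℤ) : ℝ)| ≤ 10 ^ 9 := by simp [E8]; norm_num
  calc _ ≤ (10 ^ 8 * t * (10 ^ 8 * t) * (10 ^ 8 * t) * (10 ^ 8 * t) * 10 ^ 9 * 10 ^ 9 * 10 ^ 9) *
        (2 * t * (2 * t) * (2 * t) * (2 * t) * (t : ℝ) ^ 2 * (t : ℝ) ^ 2 * (t : ℝ) ^ 2) := by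
        gcongr
    _ = (10 ^ 59 * 16) * (t : ℝ) ^ 14 := by ring
    _ ≤ 10 ^ 61 * (t : ℝ) ^ 14 := by
        refine mul_le_mul_of_nonneg_right (by norm_num) (by positivity)

theorem eight (s : ℕ) (θ ε : ℝ) (hε : 0 ≤ ε) (hlt : 14 * ε < 2 + θ) (C : ℝ) (hC : 0 < C) :
    ∃ a b : Fin (7 + (s + 1)) → ℤ, (∀ i, 1 < a i) ∧
      (Pairwise fun i j => IsCoprime (a i) (a j)) ∧ (∀ i, b i ≠ 0) ∧
      (∏ i, ((a i : ℝ) ^ (b i))) ≠ 1 ∧
      |(∏ i, ((a i : ℝ) ^ (b i))) - 1|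
        < C * ((Finset.univ.sup fun i => (b i).natAbs : ℕ) : ℝ) ^ θ /
          ((∏ i, |((b i : ℤ) : ℝ)|) * (∏ i, |((a i : ℤ) : ℝ)|)) ^ (1 + ε) := by
  refine assemble A8 E8 (-117318768) (by norm_num) 16 14 (10 ^ 61) 1123264800 3300 (by norm_num)
    (10 ^ 7) (by norm_num) (by norm_num) A8_gt E8_ne A8_coprime ?_ height8 ?_ ?_ F8_main
    (by norm_num) s θ ε hε (by push_cast; linarith) C hC
  · exact fun p hp hp0 t ht i => A8_prime p hp hp0 t ht i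
  · intro t ht
    have hT : (10 : ℝ) ^ 7 ≤ (t : ℝ) := by exact_mod_cast ht
    refine ⟨0, ?_⟩
    simp [E8]
    rw [le_abs]
    right; linarith
  · intro t ht i
    have hT : (10 : ℝ) ^ 7 ≤ (t : ℝ) := by exact_mod_cast ht
    fin_cases i <;> simp [E8] <;> (try rw [abs_le]) <;> (try constructor) <;> linarith

end Pool.Agent.H473.LW
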