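import Mathlib

/-!
# Assembling counterexamples to the Lang-Waldschmidt inequality from parametric families
-/

set_option autoImplicit false

namespace Pool.Agent.H473.LW

open Filter Topology Finset

lemma exists_primes (M N0 s : ℕ) (hM : M ≠ 0) :
    ∃ c : Fin (s + 1) → ℕ, Function.Injective c ∧
      ∀ j, (c j).Prime ∧ N0 < c j ∧ c j ≡ 1 [MOD M] := by
  have hinf : {p : ℕ | p.Prime ∧ N0 < p ∧ p ≡ 1 [MOD M]}.Infinite := by
    apply Set.infinite_of_forall_exists_gt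
    intro a
    obtain ⟨p, hp, hlt, hmod⟩ := Nat.exists_prime_gt_modEq_one (k := M) (max a N0) hM
    exact ⟨p, ⟨hp, lt_of_le_of_lt (le_max_right _ _) hlt, hmod⟩,
      lt_of_le_of_lt (le_max_left _ _) hlt⟩
  let f := hinf.natEmbedding
  refine ⟨fun j => (f j.1 : ℕ), ?_, fun j => (f j.1).2⟩
  intro i j hij
  have := f.injective (Subtype.ext hij)
  exact Fin.ext this

lemma eventually_small (Q : ℝ) (hQ : 1 < Q) (δ : ℝ) (hδ : 0 < δ) (N : ℕ) (c : ℝ) (hc : 0 < c)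
    (L : ℝ) : ∀ᶠ n : ℕ in atTop, L * ((n : ℝ) ^ N * (Q ^ (-δ)) ^ n) < c := by
  have h1 : |Q ^ (-δ)| < 1 := by
    rw [abs_of_pos (Real.rpow_pos_of_pos (by linarith) _)]
    exact Real.rpow_lt_one_of_one_lt_of_neg hQ (by linarith)
  have h2 := tendsto_pow_const_mul_const_pow_of_abs_lt_one N h1
  have h3 := h2.const_mul L
  rw [mul_zero] at h3
  exact h3.eventually_lt_const hc

lemma final_ineq (k S s N : ℕ) (K K1 κ θ ε C t n D B H : ℝ) (hK : 0 ≤ K) (hK1 : 0 ≤ K1)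
    (hε : 0 ≤ ε) (hC : 0 < C) (ht : 0 < t) (hn : 1 ≤ n) (hH0 : 0 < H)
    (hN : ((s + 1 : ℕ) : ℝ) * (1 + ε) ≤ N)
    (hD : D ≤ 2 * K * (t ^ k)⁻¹) (hB : κ * t ^ θ ≤ B ^ θ)
    (hH : H ≤ K1 * n ^ (s + 1) * t ^ S)
    (hmain : 2 * K * K1 ^ (1 + ε) * (n ^ N * t ^ (-(k + θ - S * (1 + ε)))) < C * κ) :
    D < C * B ^ θ / H ^ (1 + ε) := by
  have hn0 : 0 < n := by linarith
  have hHp : 0 < H ^ (1 + ε) := Real.rpow_pos_of_pos hH0 _
  rw [lt_div_iff₀ hHp]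
  have h1 : H ^ (1 + ε) ≤ (K1 * n ^ (s + 1) * t ^ S) ^ (1 + ε) :=
    Real.rpow_le_rpow hH0.le hH (by linarith)
  have h2 : (K1 * n ^ (s + 1) * t ^ S) ^ (1 + ε)
      = K1 ^ (1 + ε) * (n ^ (s + 1)) ^ (1 + ε) * (t ^ S) ^ (1 + ε) := by
    rw [Real.mul_rpow (by positivity) (by positivity), Real.mul_rpow hK1 (by positivity)]
  have h3 : (n ^ (s + 1)) ^ (1 + ε) ≤ n ^ N := by
    rw [← Real.rpow_natCast n (s + 1), ← Real.rpow_mul hn0.le, ← Real.rpow_natCast n N]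
    exact Real.rpow_le_rpow_of_exponent_le hn hN
  have h4 : (t ^ S) ^ (1 + ε) = t ^ ((S : ℝ) * (1 + ε)) := by
    rw [← Real.rpow_natCast t S, ← Real.rpow_mul ht.le]
  have h5 : (t ^ k)⁻¹ = t ^ (-(k : ℝ)) := by
    rw [Real.rpow_neg ht.le, Real.rpow_natCast]
  have hK1p : 0 ≤ K1 ^ (1 + ε) := Real.rpow_nonneg hK1 _
  have htS : 0 < t ^ ((S : ℝ) * (1 + ε)) := Real.rpow_pos_of_pos ht _
  have htk : 0 < t ^ (-(k : ℝ)) := Real.rpow_pos_of_pos ht _
  have htθ : 0 < t ^ θ := Real.rpow_pos_of_pos ht _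
  have h6 : H ^ (1 + ε) ≤ K1 ^ (1 + ε) * n ^ N * t ^ ((S : ℝ) * (1 + ε)) := by
    rw [h2, h4] at h1
    refine h1.trans ?_
    gcongr
  calc D * H ^ (1 + ε)
      ≤ (2 * K * t ^ (-(k : ℝ))) * (K1 ^ (1 + ε) * n ^ N * t ^ ((S : ℝ) * (1 + ε))) := by
        rw [h5] at hD
        refine mul_le_mul hD h6 hHp.le (by positivity)
    _ = (2 * K * K1 ^ (1 + ε) * (n ^ N * t ^ (-(k + θ - S * (1 + ε))))) * t ^ θ := by
        have : t ^ (-(k : ℝ)) * t ^ ((S : ℝ) * (1 + ε))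
            = t ^ (-(k + θ - S * (1 + ε))) * t ^ θ := by
          rw [← Real.rpow_add ht, ← Real.rpow_add ht]
          congr 1
          ring
        calc (2 * K * t ^ (-(k : ℝ))) * (K1 ^ (1 + ε) * n ^ N * t ^ ((S : ℝ) * (1 + ε)))
            = 2 * K * K1 ^ (1 + ε) * n ^ N * (t ^ (-(k : ℝ)) * t ^ ((S : ℝ) * (1 + ε))) := by ring
          _ = _ := by rw [this]; ring
    _ < (C * κ) * t ^ θ := by
        exact mul_lt_mul_of_pos_right hmain htθ
    _ = C * (κ * t ^ θ) := by ring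
    _ ≤ C * B ^ θ := by gcongr

theorem assemble {r : ℕ} (A E : Fin r → ℤ → ℤ) (e0 : ℤ) (he0 : e0 ≠ 0) (k S : ℕ) (K : ℝ)
    (M N0 : ℕ) (hM : M ≠ 0) (T0 : ℤ) (hT0 : 1 ≤ T0) (hK : 1 ≤ K)
    (hA : ∀ t, T0 ≤ t → ∀ i, 1 < A i t)
    (hE : ∀ t, T0 ≤ t → ∀ i, E i t ≠ 0)
    (hcop : ∀ t : ℤ, (M : ℤ) ∣ t - 1 → ∀ i j, i ≠ j → IsCoprime (A i t) (A j t))
    (hc0 : ∀ p : ℕ, p.Prime → N0 < p → ∀ t : ℤ, (p : ℤ) ∣ t → ∀ i, IsCoprime (p : ℤ) (A i t))
    (hH : ∀ t : ℤ, T0 ≤ t →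
      (∏ i, |((E i t : ℤ) : ℝ)|) * (∏ i, |((A i t : ℤ) : ℝ)|) ≤ K * (t : ℝ) ^ S)
    (hB1 : ∀ t : ℤ, T0 ≤ t → ∃ i, (t : ℝ) ≤ |((E i t : ℤ) : ℝ)|)
    (hB2 : ∀ t : ℤ, T0 ≤ t → ∀ i, |((E i t : ℤ) : ℝ)| ≤ K * t)
    (hF : ∀ t : ℤ, T0 ≤ t →
      (e0 : ℝ) * Real.log t + ∑ i, (E i t : ℝ) * Real.log (A i t) ≠ 0 ∧
      |(e0 : ℝ) * Real.log t + ∑ i, (E i t : ℝ) * Real.log (A i t)| ≤ K * ((t : ℝ) ^ k)⁻¹)
    (hk : 1 ≤ k)
    (s : ℕ) (θ ε : ℝ) (hε : 0 ≤ ε) (hlt : S * (1 + ε) < k + θ) (C : ℝ) (hC : 0 < C) :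
    ∃ a b : Fin (r + (s + 1)) → ℤ, (∀ i, 1 < a i) ∧
      (Pairwise fun i j => IsCoprime (a i) (a j)) ∧ (∀ i, b i ≠ 0) ∧
      (∏ i, ((a i : ℝ) ^ (b i))) ≠ 1 ∧
      |(∏ i, ((a i : ℝ) ^ (b i))) - 1|
        < C * ((Finset.univ.sup fun i => (b i).natAbs : ℕ) : ℝ) ^ θ /
          ((∏ i, |((b i : ℤ) : ℝ)|) * (∏ i, |((a i : ℤ) : ℝ)|)) ^ (1 + ε) := by
  obtain ⟨c, hcinj, hc⟩ := exists_primes M N0 s hM
  -- the base
  set Q : ℕ := ∏ j, c j with hQdef
  have hQ2 : 2 ≤ Q := by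
    have h1 : c 0 ∣ Q := Finset.dvd_prod_of_mem _ (Finset.mem_univ _)
    have h2 : 0 < Q := Finset.prod_pos fun j _ => (hc j).1.pos
    exact (hc 0).1.two_le.trans (Nat.le_of_dvd h2 h1)
  have hQmod : Q ≡ 1 [MOD M] := by
    rw [hQdef]
    have : ∀ (u : Finset (Fin (s + 1))), (∏ j ∈ u, c j) ≡ 1 [MOD M] := by
      intro u
      induction u using Finset.induction_on with
      | empty => simp; exact Nat.ModEq.refl 1
      | insert i u hi ih =>
        rw [Finset.prod_insert hi]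
        exact (Nat.ModEq.mul (hc i).2.2 ih)
    exact this _
  have hQr : (1 : ℝ) < (Q : ℝ) := by exact_mod_cast (lt_of_lt_of_le one_lt_two hQ2)
  -- constants
  set e0r : ℝ := |((e0 : ℤ) : ℝ)| with he0r
  have he0r1 : 1 ≤ e0r := by
    rw [he0r, ← Int.cast_abs]; exact_mod_cast Int.one_le_abs he0
  set K' : ℝ := max K e0r with hK'
  have hK'1 : 1 ≤ K' := hK.trans (le_max_left _ _)
  set κ : ℝ := min 1 (K' ^ θ) with hκ
  have hκ0 : 0 < κ := lt_min one_pos (Real.rpow_pos_of_pos (by linarith) _)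
  set K1 : ℝ := K * e0r ^ (s + 1) * Q with hK1
  have hK10 : 0 ≤ K1 := by positivity
  set δ : ℝ := k + θ - S * (1 + ε) with hδ
  have hδ0 : 0 < δ := by rw [hδ]; linarith
  obtain ⟨N, hN⟩ := exists_nat_ge (((s + 1 : ℕ) : ℝ) * (1 + ε))
  -- choice of n
  have hev1 := eventually_small (Q : ℝ) hQr δ hδ0 N (C * κ) (by positivity)
    (2 * K * K1 ^ (1 + ε))
  have hev2 : ∀ᶠ n : ℕ in atTop, (T0 : ℝ) + K + 1 ≤ (Q : ℝ) ^ n :=
    (tendsto_pow_atTop_atTop_of_one_lt hQr).eventually_ge_atTop _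
  obtain ⟨n, ⟨hn1, hn2⟩, hn3⟩ := ((hev1.and hev2).and (eventually_ge_atTop 1)).exists
  set t : ℤ := ((Q ^ n : ℕ) : ℤ) with ht
  have htr : (t : ℝ) = (Q : ℝ) ^ n := by rw [ht]; push_cast; ring
  have htT : T0 ≤ t := by
    have : (T0 : ℝ) ≤ (t : ℝ) := by rw [htr]; linarith
    exact_mod_cast this
  have hT0r : (1 : ℝ) ≤ (T0 : ℝ) := by exact_mod_cast hT0
  have htK : K ≤ (t : ℝ) := by rw [htr]; linarith
  have ht1 : (1 : ℝ) ≤ (t : ℝ) := hK.trans htK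
  have ht0 : (0 : ℝ) < (t : ℝ) := by linarith
  have hnr : (1 : ℝ) ≤ (n : ℝ) := by exact_mod_cast hn3
  have hnt : (n : ℝ) ≤ (t : ℝ) := by
    have h1 : n < Q ^ n := Nat.lt_pow_self (by omega)
    have h2 : (n : ℝ) < (Q : ℝ) ^ n := by exact_mod_cast h1
    rw [htr]; exact h2.le
  -- the divisibility properties of t
  have htM : (M : ℤ) ∣ t - 1 := by
    have h1 : Q ^ n ≡ 1 [MOD M] := by simpa using hQmod.pow n
    have h2 : ((M : ℕ) : ℤ) ∣ ((Q ^ n : ℕ) : ℤ) - ((1 : ℕ) : ℤ) :=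
      (Nat.modEq_iff_dvd.mp h1.symm)
    rw [ht]; simpa using h2
  have htc : ∀ j, ((c j : ℕ) : ℤ) ∣ t := by
    intro j
    have h1 : c j ∣ Q := Finset.dvd_prod_of_mem _ (Finset.mem_univ _)
    have h2 : c j ∣ Q ^ n := h1.trans (dvd_pow_self _ (by omega))
    rw [ht]; exact_mod_cast h2
  -- the tuples
  set a : Fin (r + (s + 1)) → ℤ := Fin.append (fun i => A i t) (fun j => ((c j : ℕ) : ℤ)) with ha
  set b : Fin (r + (s + 1)) → ℤ := Fin.append (fun i => E i t) (fun _ => e0 * (n : ℤ)) with hb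
  have hal : ∀ i, a (Fin.castAdd (s + 1) i) = A i t := fun i => by rw [ha, Fin.append_left]
  have har : ∀ j, a (Fin.natAdd r j) = ((c j : ℕ) : ℤ) := fun j => by rw [ha, Fin.append_right]
  have hbl : ∀ i, b (Fin.castAdd (s + 1) i) = E i t := fun i => by rw [hb, Fin.append_left]
  have hbr : ∀ j, b (Fin.natAdd r j) = e0 * (n : ℤ) := fun j => by rw [hb, Fin.append_right]
  have hen : e0 * (n : ℤ) ≠ 0 := mul_ne_zero he0 (by exact_mod_cast (by omega : n ≠ 0))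
  have hApos : ∀ i, (0 : ℝ) < (A i t : ℝ) := fun i => by
    have := hA t htT i
    exact_mod_cast (by omega : 0 < A i t)
  have hcpos : ∀ j, (0 : ℝ) < ((c j : ℕ) : ℝ) := fun j => by exact_mod_cast (hc j).1.pos
  set F : ℝ := (e0 : ℝ) * Real.log t + ∑ i, (E i t : ℝ) * Real.log (A i t) with hFdef
  obtain ⟨hF1, hF2⟩ := hF t htT
  rw [← hFdef] at hF1 hF2
  -- the product is exp F
  have hprod : (∏ i, ((a i : ℝ) ^ (b i))) = Real.exp F := by
    rw [Fin.prod_univ_add]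
    simp only [hal, har, hbl, hbr]
    have h1 : (∏ i, ((A i t : ℝ) ^ (E i t))) = Real.exp (∑ i, (E i t : ℝ) * Real.log (A i t)) := by
      rw [Real.exp_sum]
      refine Finset.prod_congr rfl fun i _ => ?_
      rw [mul_comm, ← Real.rpow_def_of_pos (hApos i), Real.rpow_intCast]
    have h2 : (∏ j, ((((c j : ℕ) : ℤ) : ℝ) ^ (e0 * (n : ℤ)))) = Real.exp ((e0 : ℝ) * Real.log t) := by
      have h3 : Real.log t = ∑ j, (n : ℝ) * Real.log (c j) := by
        rw [htr, Real.log_pow, hQdef]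
        push_cast
        rw [Real.log_prod (fun j _ => (hcpos j).ne'), Finset.mul_sum]
      rw [h3, Finset.mul_sum, Real.exp_sum]
      refine Finset.prod_congr rfl fun j _ => ?_
      rw [Int.cast_natCast, ← Real.rpow_intCast, Real.rpow_def_of_pos (hcpos j)]
      congr 1
      push_cast
      ring
    rw [h1, h2, ← Real.exp_add]
    congr 1
    rw [hFdef]; ring
  have hFle : |F| ≤ 1 := by
    refine hF2.trans ?_
    have h1 : (t : ℝ) ≤ (t : ℝ) ^ k := le_self_pow₀ ht1 (by omega)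
    rw [← div_eq_mul_inv, div_le_one (by positivity)]
    linarith
  -- the maximum
  set B : ℝ := ((Finset.univ.sup fun i => (b i).natAbs : ℕ) : ℝ) with hBdef
  have hBge : (t : ℝ) ≤ B := by
    obtain ⟨i, hi⟩ := hB1 t htT
    have h1 : (b (Fin.castAdd (s + 1) i)).natAbs ≤ (Finset.univ.sup fun i => (b i).natAbs) :=
      Finset.le_sup (f := fun i => (b i).natAbs) (Finset.mem_univ _)
    have h2 : (((b (Fin.castAdd (s + 1) i)).natAbs : ℕ) : ℝ) ≤ B := by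
      rw [hBdef]; exact_mod_cast h1
    rw [Nat.cast_natAbs, Int.cast_abs, hbl] at h2
    exact hi.trans h2
  have hBle : B ≤ K' * t := by
    have h1 : ∀ i, (((b i).natAbs : ℕ) : ℝ) ≤ K' * t := by
      intro i
      rw [Nat.cast_natAbs, Int.cast_abs]
      refine Fin.addCases (fun i => ?_) (fun j => ?_) i
      · rw [hbl]
        refine (hB2 t htT i).trans ?_
        exact mul_le_mul_of_nonneg_right (le_max_left _ _) ht0.le
      · rw [hbr]
        push_cast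
        rw [abs_mul, abs_of_nonneg (by positivity : (0 : ℝ) ≤ (n : ℝ))]
        exact mul_le_mul (le_max_right _ _) hnt (by positivity) (by linarith)
    obtain ⟨i, _, hi⟩ := Finset.exists_mem_eq_sup Finset.univ
      ⟨Fin.natAdd r 0, Finset.mem_univ _⟩ (fun i => (b i).natAbs)
    rw [hBdef, hi]
    exact h1 i
  have hBθ : κ * (t : ℝ) ^ θ ≤ B ^ θ := by
    have hB0 : 0 < B := lt_of_lt_of_le ht0 hBge
    rcases le_or_gt 0 θ with hθ | hθ
    · calc κ * (t : ℝ) ^ θ ≤ 1 * (t : ℝ) ^ θ := by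
            exact mul_le_mul_of_nonneg_right (min_le_left _ _) (Real.rpow_nonneg ht0.le _)
        _ = (t : ℝ) ^ θ := one_mul _
        _ ≤ B ^ θ := Real.rpow_le_rpow ht0.le hBge hθ
    · calc κ * (t : ℝ) ^ θ ≤ K' ^ θ * (t : ℝ) ^ θ := by
            exact mul_le_mul_of_nonneg_right (min_le_right _ _) (Real.rpow_nonneg ht0.le _)
        _ = (K' * t) ^ θ := by rw [Real.mul_rpow (by linarith) ht0.le]
        _ ≤ B ^ θ := Real.rpow_le_rpow_of_nonpos hB0 hBle hθ.le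
  -- the height
  set H : ℝ := (∏ i, |((b i : ℤ) : ℝ)|) * (∏ i, |((a i : ℤ) : ℝ)|) with hHdef
  have hHle : H ≤ K1 * (n : ℝ) ^ (s + 1) * (t : ℝ) ^ S := by
    have h1 : H = ((∏ i, |((E i t : ℤ) : ℝ)|) * (∏ i, |((A i t : ℤ) : ℝ)|)) *
        ((e0r * n) ^ (s + 1) * Q) := by
      rw [hHdef, Fin.prod_univ_add (fun i => |((b i : ℤ) : ℝ)|),
        Fin.prod_univ_add (fun i => |((a i : ℤ) : ℝ)|)]
      simp only [hal, har, hbl, hbr]
      have h2 : (∏ j : Fin (s + 1), |((((c j : ℕ) : ℤ)) : ℝ)|) = (Q : ℝ) := by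
        rw [hQdef]
        push_cast
        refine Finset.prod_congr rfl fun j _ => ?_
        exact abs_of_pos (hcpos j)
      have h3 : (∏ _j : Fin (s + 1), |((e0 * (n : ℤ) : ℤ) : ℝ)|) = (e0r * n) ^ (s + 1) := by
        rw [Finset.prod_const, Finset.card_univ, Fintype.card_fin]
        congr 1
        push_cast
        rw [abs_mul, abs_of_nonneg (by positivity : (0 : ℝ) ≤ (n : ℝ))]
      rw [h2, h3]
      ring
    rw [h1]
    calc ((∏ i, |((E i t : ℤ) : ℝ)|) * (∏ i, |((A i t : ℤ) : ℝ)|)) * ((e0r * n) ^ (s + 1) * Q)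
        ≤ (K * (t : ℝ) ^ S) * ((e0r * n) ^ (s + 1) * Q) := by
          exact mul_le_mul_of_nonneg_right (hH t htT) (by positivity)
      _ = K1 * (n : ℝ) ^ (s + 1) * (t : ℝ) ^ S := by rw [hK1]; ring
  have hbne : ∀ i, b i ≠ 0 := by
    intro i
    refine Fin.addCases (fun i => ?_) (fun j => ?_) i
    · rw [hbl]; exact hE t htT i
    · rw [hbr]; exact hen
  have hagt : ∀ i, 1 < a i := by
    intro i
    refine Fin.addCases (fun i => ?_) (fun j => ?_) i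
    · rw [hal]; exact hA t htT i
    · rw [har]; exact_mod_cast (hc j).1.one_lt
  have hH0 : 0 < H := by
    rw [hHdef]
    refine mul_pos (Finset.prod_pos fun i _ => ?_) (Finset.prod_pos fun i _ => ?_)
    · exact abs_pos.mpr (by exact_mod_cast hbne i)
    · have := hagt i
      exact abs_pos.mpr (by exact_mod_cast (by omega : a i ≠ 0))
  refine ⟨a, b, hagt, ?_, hbne, ?_, ?_⟩
  · intro i j
    refine Fin.addCases (fun i => ?_) (fun i => ?_) i <;>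
      refine Fin.addCases (fun j => ?_) (fun j => ?_) j
    · intro hij
      rw [hal, hal]
      exact hcop t htM i j (fun h => hij (by rw [h]))
    · intro _
      rw [hal, har]
      exact (hc0 (c j) (hc j).1 (hc j).2.1 t (htc j) i).symm
    · intro _
      rw [hal, har]
      exact hc0 (c i) (hc i).1 (hc i).2.1 t (htc i) j
    · intro hij
      rw [har, har]
      have hne : c i ≠ c j := fun h => hij (by rw [hcinj h])
      exact Nat.isCoprime_iff_coprime.mpr ((Nat.coprime_primes (hc i).1 (hc j).1).mpr hne)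
  · rw [hprod]
    intro h
    exact hF1 (by simpa using h)
  · rw [hprod]
    have hD : |Real.exp F - 1| ≤ 2 * K * ((t : ℝ) ^ k)⁻¹ := by
      refine (Real.abs_exp_sub_one_le hFle).trans ?_
      calc 2 * |F| ≤ 2 * (K * ((t : ℝ) ^ k)⁻¹) := by linarith
        _ = _ := by ring
    refine final_ineq k S s N K K1 κ θ ε C (t : ℝ) (n : ℝ) _ B H (by linarith) hK10 hε hC ht0
      hnr hH0 hN hD hBθ hHle ?_
    have h1 : ((Q : ℝ) ^ (-δ)) ^ n = (t : ℝ) ^ (-(k + θ - S * (1 + ε))) := by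
      rw [htr, ← Real.rpow_natCast ((Q : ℝ) ^ (-δ)) n, ← Real.rpow_mul (by positivity),
        ← Real.rpow_natCast (Q : ℝ) n, ← Real.rpow_mul (by positivity), hδ]
      congr 1
      ring
    rw [h1] at hn1
    exact hn1

end Pool.Agent.H473.LW
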