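import Pool.Agent.H473.LW.Gen

/-!
# Power-many counterexamples to the Lang-Waldschmidt inequality from a parametric family
-/

set_option autoImplicit false

namespace Pool.Agent.H473.LW

open Filter Topology Finset

lemma final_ineq' (K K1 κ ε C y k θ1 S1 D Y H : ℝ) (hK : 0 ≤ K) (hK1 : 0 ≤ K1)
    (hε : 0 ≤ ε) (hC : 0 < C) (hy : 0 < y) (hH0 : 0 < H)
    (hD : D ≤ 2 * K * y ^ (-k)) (hB : κ * y ^ θ1 ≤ Y) (hH : H ≤ K1 * y ^ S1)
    (hmain : 2 * K * K1 ^ (1 + ε) * y ^ (-(k + θ1 - S1 * (1 + ε))) < C * κ) :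
    D < C * Y / H ^ (1 + ε) := by
  have hHp : 0 < H ^ (1 + ε) := Real.rpow_pos_of_pos hH0 _
  rw [lt_div_iff₀ hHp]
  have h1 : H ^ (1 + ε) ≤ K1 ^ (1 + ε) * y ^ (S1 * (1 + ε)) := by
    refine (Real.rpow_le_rpow hH0.le hH (by linarith)).trans ?_
    rw [Real.mul_rpow hK1 (Real.rpow_nonneg hy.le _), ← Real.rpow_mul hy.le]
  have hK1p : 0 ≤ K1 ^ (1 + ε) := Real.rpow_nonneg hK1 _
  have hyk : 0 < y ^ (-k) := Real.rpow_pos_of_pos hy _
  have hyθ : 0 < y ^ θ1 := Real.rpow_pos_of_pos hy _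
  calc D * H ^ (1 + ε)
      ≤ (2 * K * y ^ (-k)) * (K1 ^ (1 + ε) * y ^ (S1 * (1 + ε))) :=
        mul_le_mul hD h1 hHp.le (by positivity)
    _ = (2 * K * K1 ^ (1 + ε) * y ^ (-(k + θ1 - S1 * (1 + ε)))) * y ^ θ1 := by
        have : y ^ (-k) * y ^ (S1 * (1 + ε))
            = y ^ (-(k + θ1 - S1 * (1 + ε))) * y ^ θ1 := by
          rw [← Real.rpow_add hy, ← Real.rpow_add hy]
          congr 1
          ring
        calc (2 * K * y ^ (-k)) * (K1 ^ (1 + ε) * y ^ (S1 * (1 + ε)))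
            = 2 * K * K1 ^ (1 + ε) * (y ^ (-k) * y ^ (S1 * (1 + ε))) := by ring
          _ = _ := by rw [this]; ring
    _ < (C * κ) * y ^ θ1 := mul_lt_mul_of_pos_right hmain hyθ
    _ = C * (κ * y ^ θ1) := by ring
    _ ≤ C * Y := by gcongr

lemma expansion_lt (N : ℕ) (c L w x x' y y' : ℝ) (hc : 0 < c) (hL : 0 ≤ L) (hw : 0 < w)
    (hx' : 0 < x') (hx : 0 < x) (hxx : x' ≤ x - w * x ^ 2) (h : 2 * L * x < c * w)
    (hy : |y - c * x ^ (N + 1)| ≤ L * x ^ (N + 3))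
    (hy' : |y' - c * x' ^ (N + 1)| ≤ L * x' ^ (N + 3)) : y' < y := by
  have hle : x' ≤ x := by nlinarith [sq_nonneg x]
  have h1 : x' ^ (N + 1) ≤ x ^ (N + 1) - w * x ^ (N + 2) := by
    calc x' ^ (N + 1) = x' ^ N * x' := pow_succ _ _
      _ ≤ x ^ N * (x - w * x ^ 2) :=
        mul_le_mul (pow_le_pow_left₀ hx'.le hle N) hxx hx'.le (by positivity)
      _ = _ := by ring
  have h2 : x' ^ (N + 3) ≤ x ^ (N + 3) := pow_le_pow_left₀ hx'.le hle _
  have h3 : 0 < x ^ (N + 2) := by positivity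
  have h4 : 2 * L * x ^ (N + 3) < c * w * x ^ (N + 2) := by
    have : 2 * L * x ^ (N + 3) = 2 * L * x * x ^ (N + 2) := by ring
    rw [this]
    exact mul_lt_mul_of_pos_right h h3
  have h5 : c * x' ^ (N + 1) ≤ c * (x ^ (N + 1) - w * x ^ (N + 2)) :=
    mul_le_mul_of_nonneg_left h1 hc.le
  have h6 : L * x' ^ (N + 3) ≤ L * x ^ (N + 3) := mul_le_mul_of_nonneg_left h2 hL
  rw [abs_le] at hy hy'
  nlinarith [hy.1, hy'.2]

/-- A sequence of distinct objects whose heights grow at most like the `e`-th power of the index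
has at least `κ X ^ (1 / e)` members of height at most `X`. -/
lemma count_of_height {α : Type*} [DecidableEq α] (f : ℕ → α) (hf : Function.Injective f)
    (Hf : ℕ → ℝ) (K2 L : ℝ) (e : ℕ) (he : 1 ≤ e) (hK2 : 0 < K2) (hL : 0 ≤ L)
    (h : ∀ j, Hf j ≤ K2 * ((j : ℝ) + L) ^ e) :
    ∃ κ : ℝ, 0 < κ ∧ ∀ᶠ X : ℝ in atTop, ∃ F : Finset α,
      κ * X ^ ((1 : ℝ) / (e : ℝ)) ≤ (F.card : ℝ) ∧ ∀ p ∈ F, ∃ j, f j = p ∧ Hf j ≤ X := by
  have he0 : (0 : ℝ) < (e : ℝ) := by exact_mod_cast (by omega : 0 < e)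
  set D : ℝ := (K2⁻¹) ^ ((1 : ℝ) / (e : ℝ)) with hD
  have hD0 : 0 < D := Real.rpow_pos_of_pos (by positivity) _
  have hlim : Tendsto (fun X : ℝ => X ^ ((1 : ℝ) / (e : ℝ))) atTop atTop :=
    tendsto_rpow_atTop (by positivity)
  have hev := hlim.eventually_ge_atTop (2 * (L + 1) / D)
  refine ⟨D / 2, by positivity, ?_⟩
  filter_upwards [hev, eventually_ge_atTop (1 : ℝ)] with X hX hX1
  set Y : ℝ := X ^ ((1 : ℝ) / (e : ℝ)) with hY
  have hY0 : 0 < Y := Real.rpow_pos_of_pos (by linarith) _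
  have hDY : 2 * (L + 1) ≤ D * Y := by
    rw [div_le_iff₀ hD0] at hX; linarith
  set J : ℕ := ⌊D * Y - L⌋₊ with hJ
  have hJ1 : (J : ℝ) ≤ D * Y - L := Nat.floor_le (by linarith)
  have hJ2 : D * Y - L - 1 < (J : ℝ) := by
    have := Nat.lt_floor_add_one (D * Y - L)
    rw [← hJ] at this
    linarith
  refine ⟨(Finset.range J).image f, ?_, ?_⟩
  · rw [Finset.card_image_of_injective _ hf, Finset.card_range]
    linarith
  · intro p hp
    obtain ⟨j, hj, rfl⟩ := Finset.mem_image.mp hp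
    refine ⟨j, rfl, (h j).trans ?_⟩
    have hj' : (j : ℝ) + 1 ≤ (J : ℝ) := by exact_mod_cast Finset.mem_range.mp hj
    have h1 : (j : ℝ) + L ≤ D * Y := by linarith
    have key : ∀ q : ℝ, 0 ≤ q → (q ^ ((1 : ℝ) / (e : ℝ))) ^ e = q := by
      intro q hq
      rw [← Real.rpow_natCast, ← Real.rpow_mul hq]
      rw [one_div, inv_mul_cancel₀ he0.ne', Real.rpow_one]
    calc K2 * ((j : ℝ) + L) ^ e ≤ K2 * (D * Y) ^ e := by
          gcongr
      _ = K2 * (K2⁻¹ * X) := by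
          rw [mul_pow, hD, hY, key _ (by positivity), key X (by linarith)]
      _ = X := by field_simp

theorem many {r : ℕ} (A E : Fin r → ℤ → ℤ) (e0 : ℤ) (he0 : e0 ≠ 0) (k S : ℕ) (K : ℝ)
    (M : ℕ) (hM : M ≠ 0) (T0 : ℤ) (hK : 1 ≤ K)
    (hA : ∀ t, T0 ≤ t → ∀ i, 1 < A i t)
    (hE : ∀ t, T0 ≤ t → ∀ i, E i t ≠ 0)
    (hcop : ∀ t : ℤ, (M : ℤ) ∣ t - 1 → ∀ i j, i ≠ j → IsCoprime (A i t) (A j t))
    (hcop0 : ∀ t : ℤ, (M : ℤ) ∣ t - 1 → ∀ i, IsCoprime t (A i t))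
    (hH : ∀ t : ℤ, T0 ≤ t →
      (∏ i, |((E i t : ℤ) : ℝ)|) * (∏ i, |((A i t : ℤ) : ℝ)|) ≤ K * (t : ℝ) ^ S)
    (hB1 : ∀ t : ℤ, T0 ≤ t → ∃ i, (t : ℝ) ≤ |((E i t : ℤ) : ℝ)|)
    (hB2 : ∀ t : ℤ, T0 ≤ t → ∀ i, |((E i t : ℤ) : ℝ)| ≤ K * t)
    (hF : ∀ t : ℤ, T0 ≤ t →
      (e0 : ℝ) * Real.log t + ∑ i, (E i t : ℝ) * Real.log (A i t) ≠ 0 ∧
      |(e0 : ℝ) * Real.log t + ∑ i, (E i t : ℝ) * Real.log (A i t)| ≤ K * ((t : ℝ) ^ k)⁻¹)
    (hinj : ∀ t t' : ℤ, T0 ≤ t → t < t' →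
      (e0 : ℝ) * Real.log t + ∑ i, (E i t : ℝ) * Real.log (A i t)
        ≠ (e0 : ℝ) * Real.log t' + ∑ i, (E i t' : ℝ) * Real.log (A i t'))
    (hk : 1 ≤ k)
    (s n : ℕ) (hn : 1 ≤ n) (θ ε : ℝ) (hε : 0 ≤ ε)
    (hlt : ((S : ℝ) * n + 1) * (1 + ε) < ((k : ℝ) + θ) * n) (C : ℝ) (hC : 0 < C) :
    ∃ κ : ℝ, 0 < κ ∧ ∀ᶠ X : ℝ in atTop, ∃ F : Finset ℝ,
        κ * X ^ ((1 : ℝ) / ((S * n + 1 : ℕ) : ℝ)) ≤ (F.card : ℝ) ∧
        ∀ x ∈ F, ∃ a b : Fin (r + (s + 1)) → ℤ,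
          (∏ i, ((a i : ℝ) ^ (b i))) = x ∧ ((∀ i, 1 < a i) ∧
          (Pairwise fun i j => IsCoprime (a i) (a j)) ∧ (∀ i, b i ≠ 0) ∧
          (∏ i, ((a i : ℝ) ^ (b i))) ≠ 1 ∧
          |(∏ i, ((a i : ℝ) ^ (b i))) - 1|
            < C * ((Finset.univ.sup fun i => (b i).natAbs : ℕ) : ℝ) ^ θ /
              ((∏ i, |((b i : ℤ) : ℝ)|) * (∏ i, |((a i : ℤ) : ℝ)|)) ^ (1 + ε)) ∧
          (∏ i, |((b i : ℤ) : ℝ)|) * (∏ i, |((a i : ℤ) : ℝ)|) ≤ X := by
  classical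
  obtain ⟨c, hcinj, hc⟩ := exists_primes M 0 s hM
  -- the fixed primes
  set p : Fin s → ℕ := fun j => c j.succ with hp
  set P : ℕ := ∏ j, p j with hP
  have hpprime : ∀ j, (p j).Prime := fun j => (hc j.succ).1
  have hpinj : Function.Injective p := fun i j hij => Fin.succ_injective _ (hcinj hij)
  have hP1 : 1 ≤ P := Finset.prod_pos fun j _ => (hpprime j).pos
  have hPmod : (M : ℤ) ∣ (P : ℤ) - 1 := by
    have : ∀ (u : Finset (Fin s)), (∏ j ∈ u, p j) ≡ 1 [MOD M] := by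
      intro u
      induction u using Finset.induction_on with
      | empty => simp; exact Nat.ModEq.refl 1
      | insert i u hi ih =>
        rw [Finset.prod_insert hi]
        exact (Nat.ModEq.mul (hc i.succ).2.2 ih)
    have h1 := (Nat.modEq_iff_dvd.mp (this Finset.univ).symm)
    simpa [hP] using h1
  set M' : ℕ := M * P with hM'
  have hM'1 : 1 ≤ M' := Nat.one_le_iff_ne_zero.mpr (Nat.mul_ne_zero hM (by omega))
  -- constants
  set e0r : ℝ := |((e0 : ℤ) : ℝ)| with he0r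
  have he0r1 : 1 ≤ e0r := by
    rw [he0r, ← Int.cast_abs]; exact_mod_cast Int.one_le_abs he0
  have hnr : (1 : ℝ) ≤ (n : ℝ) := by exact_mod_cast hn
  have hen1 : 1 ≤ e0r * n := by nlinarith
  set K' : ℝ := max K (e0r * n) with hK'
  have hK'1 : 1 ≤ K' := hK.trans (le_max_left _ _)
  set κ : ℝ := min 1 (K' ^ θ) with hκ
  have hκ0 : 0 < κ := lt_min one_pos (Real.rpow_pos_of_pos (by linarith) _)
  set K1 : ℝ := K * (e0r * n) ^ (s + 1) with hK1
  have hK10 : 0 < K1 := by positivity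
  set e : ℕ := S * n + 1 with he
  have her : (e : ℝ) = (S : ℝ) * n + 1 := by rw [he]; push_cast; ring
  set δ : ℝ := (k : ℝ) * n + θ * n - (e : ℝ) * (1 + ε) with hδ
  have hδ0 : 0 < δ := by rw [hδ, her]; nlinarith
  -- the threshold
  have hlim : Tendsto (fun y : ℝ => 2 * K * K1 ^ (1 + ε) * y ^ (-δ)) atTop
      (𝓝 (2 * K * K1 ^ (1 + ε) * 0)) := (tendsto_rpow_neg_atTop hδ0).const_mul _
  rw [mul_zero] at hlim
  obtain ⟨Y0, hY0⟩ := eventually_atTop.mp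
    (hlim.eventually_lt_const (show (0 : ℝ) < C * κ by positivity))
  obtain ⟨T, hT⟩ := exists_nat_ge (max (max (T0 : ℝ) K) Y0)
  have hTT0 : (T0 : ℝ) ≤ T := (le_max_left _ _).trans ((le_max_left _ _).trans hT)
  have hTK : K ≤ T := (le_max_right _ _).trans ((le_max_left _ _).trans hT)
  have hTY : Y0 ≤ T := (le_max_right _ _).trans hT
  -- the sequence
  let d : ℕ → ℤ := fun j => 1 + (M' : ℤ) * (T + j)
  let Q : ℕ → ℤ := fun j => d j * P
  let t : ℕ → ℤ := fun j => Q j ^ n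
  let a : ℕ → Fin (r + (s + 1)) → ℤ := fun j =>
    Fin.append (fun i => A i (t j)) (Fin.cons (d j) (fun l => ((p l : ℕ) : ℤ)))
  let b : ℕ → Fin (r + (s + 1)) → ℤ := fun j =>
    Fin.append (fun i => E i (t j)) (fun _ => e0 * (n : ℤ))
  have hal : ∀ j i, a j (Fin.castAdd (s + 1) i) = A i (t j) := fun j i => by
    simp only [a]; rw [Fin.append_left]
  have har0 : ∀ j, a j (Fin.natAdd r 0) = d j := fun j => by
    simp only [a]; rw [Fin.append_right]; rfl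
  have hars : ∀ j l, a j (Fin.natAdd r (Fin.succ l)) = ((p l : ℕ) : ℤ) := fun j l => by
    simp only [a]; rw [Fin.append_right]; rfl
  have hbl : ∀ j i, b j (Fin.castAdd (s + 1) i) = E i (t j) := fun j i => by
    simp only [b]; rw [Fin.append_left]
  have hbr : ∀ j l, b j (Fin.natAdd r l) = e0 * (n : ℤ) := fun j l => by
    simp only [b]; rw [Fin.append_right]
  have hM'r : (1 : ℝ) ≤ (M' : ℝ) := by exact_mod_cast hM'1
  have hPr : (1 : ℝ) ≤ (P : ℝ) := by exact_mod_cast hP1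
  have hdr : ∀ j, ((d j : ℤ) : ℝ) = 1 + (M' : ℝ) * (T + j) := fun j => by
    simp only [d]; push_cast; ring
  have hdT : ∀ j, (T : ℝ) + 1 ≤ ((d j : ℤ) : ℝ) := fun j => by
    rw [hdr]
    have h1 : (0 : ℝ) ≤ (T : ℝ) + j := by positivity
    have h2 : (0 : ℝ) ≤ (j : ℝ) := by positivity
    nlinarith
  have hQr : ∀ j, ((Q j : ℤ) : ℝ) = ((d j : ℤ) : ℝ) * P := fun j => by
    simp only [Q]; push_cast; ring
  have hdQ : ∀ j, ((d j : ℤ) : ℝ) ≤ ((Q j : ℤ) : ℝ) := fun j => by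
    rw [hQr]
    have h1 := hdT j
    have h2 : (0 : ℝ) ≤ (T : ℝ) := by positivity
    nlinarith
  have hQT : ∀ j, (T : ℝ) ≤ ((Q j : ℤ) : ℝ) := fun j => by
    have h1 := hdT j
    have h2 := hdQ j
    linarith
  have hQ1 : ∀ j, (1 : ℝ) ≤ ((Q j : ℤ) : ℝ) := fun j => by
    have h1 := hQT j
    linarith
  have htr : ∀ j, ((t j : ℤ) : ℝ) = ((Q j : ℤ) : ℝ) ^ n := fun j => by
    simp only [t]; push_cast; ring
  have hQt : ∀ j, ((Q j : ℤ) : ℝ) ≤ ((t j : ℤ) : ℝ) := fun j => by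
    rw [htr]; exact le_self_pow₀ (hQ1 j) (by omega)
  have htT : ∀ j, T0 ≤ t j := fun j => by
    have h1 : (T0 : ℝ) ≤ ((t j : ℤ) : ℝ) := hTT0.trans ((hQT j).trans (hQt j))
    exact_mod_cast h1
  -- divisibilities
  have hdM : ∀ j, (M' : ℤ) ∣ d j - 1 := fun j => ⟨T + j, by simp only [d]; ring⟩
  have hMM' : (M : ℤ) ∣ (M' : ℤ) := ⟨P, by rw [hM']; push_cast; ring⟩
  have hQM : ∀ j, (M : ℤ) ∣ Q j - 1 := fun j => by
    have h1 : Q j - 1 = (d j - 1) * P + (P - 1) := by simp only [Q]; ring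
    rw [h1]
    exact dvd_add (Dvd.dvd.mul_right (hMM'.trans (hdM j)) _) hPmod
  have htM : ∀ j, (M : ℤ) ∣ t j - 1 := fun j => by
    have h1 := sub_dvd_pow_sub_pow (Q j) 1 n
    rw [one_pow] at h1
    exact (hQM j).trans h1
  have hdt : ∀ j, d j ∣ t j := fun j =>
    (Dvd.intro _ rfl : d j ∣ Q j).trans (dvd_pow_self _ (by omega))
  have hpt : ∀ j l, ((p l : ℕ) : ℤ) ∣ t j := fun j l => by
    have h1 : p l ∣ P := Finset.dvd_prod_of_mem _ (Finset.mem_univ _)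
    have h2 : ((p l : ℕ) : ℤ) ∣ (P : ℤ) := by exact_mod_cast h1
    exact (h2.trans (Dvd.intro_left _ rfl : (P : ℤ) ∣ Q j)).trans (dvd_pow_self _ (by omega))
  have hdp : ∀ j l, IsCoprime (d j) ((p l : ℕ) : ℤ) := fun j l => by
    have h1 : p l ∣ P := Finset.dvd_prod_of_mem _ (Finset.mem_univ _)
    have h2 : ((p l : ℕ) : ℤ) ∣ (M' : ℤ) := by
      rw [hM']
      exact_mod_cast (h1.trans (Dvd.intro_left _ rfl))
    obtain ⟨u, hu⟩ := h2.trans (hdM j)
    exact ⟨1, -u, by linear_combination hu⟩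
  have hagt : ∀ j i, 1 < a j i := by
    intro j i
    refine Fin.addCases (fun i => ?_) (fun l => ?_) i
    · rw [hal]; exact hA _ (htT j) i
    · refine Fin.cases ?_ (fun l => ?_) l
      · rw [har0]
        have h1 := hdT j
        have h2 : (1 : ℝ) ≤ T := le_trans hK hTK
        have h3 : ((1 : ℤ) : ℝ) < ((d j : ℤ) : ℝ) := by push_cast; linarith
        exact_mod_cast h3
      · rw [hars]; exact_mod_cast (hpprime l).one_lt
  have hen : e0 * (n : ℤ) ≠ 0 := mul_ne_zero he0 (by exact_mod_cast (by omega : n ≠ 0))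
  have hbne : ∀ j i, b j i ≠ 0 := by
    intro j i
    refine Fin.addCases (fun i => ?_) (fun l => ?_) i
    · rw [hbl]; exact hE _ (htT j) i
    · rw [hbr]; exact hen
  have hcopa : ∀ j, Pairwise fun i l => IsCoprime (a j i) (a j l) := by
    intro j i l
    have hx : ∀ i, ∀ l : Fin (s + 1), IsCoprime (a j (Fin.castAdd (s + 1) i)) (a j (Fin.natAdd r l)) := by
      intro i l
      rw [hal]
      have h0 := hcop0 (t j) (htM j) i
      refine Fin.cases ?_ (fun l => ?_) l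
      · rw [har0]; exact (h0.of_isCoprime_of_dvd_left (hdt j)).symm
      · rw [hars]; exact (h0.of_isCoprime_of_dvd_left (hpt j l)).symm
    refine Fin.addCases (fun i => ?_) (fun i => ?_) i <;>
      refine Fin.addCases (fun l => ?_) (fun l => ?_) l
    · intro hij
      show IsCoprime (a j _) (a j _)
      rw [hal, hal]
      exact hcop _ (htM j) i l (fun h => hij (by rw [h]))
    · intro _; exact hx i l
    · intro _; exact (hx l i).symm
    · intro hij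
      show IsCoprime (a j _) (a j _)
      have hne : i ≠ l := fun h => hij (by rw [h])
      clear hij
      revert hne
      refine Fin.cases ?_ (fun i => ?_) i <;> refine Fin.cases ?_ (fun l => ?_) l
      · intro h; exact absurd rfl h
      · intro _; rw [har0, hars]; exact hdp j l
      · intro _; rw [har0, hars]; exact (hdp j i).symm
      · intro h
        rw [hars, hars]
        have hne : p i ≠ p l := fun h' => h (by rw [hpinj h'])
        exact Nat.isCoprime_iff_coprime.mpr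
          ((Nat.coprime_primes (hpprime i) (hpprime l)).mpr hne)
  -- the height
  have hheight : ∀ j, (∏ i, |((b j i : ℤ) : ℝ)|) * (∏ i, |((a j i : ℤ) : ℝ)|)
      ≤ K1 * ((Q j : ℤ) : ℝ) ^ e := by
    intro j
    have hQ0 : (0 : ℝ) < ((Q j : ℤ) : ℝ) := by linarith [hQ1 j]
    have hd0 : (0 : ℝ) < ((d j : ℤ) : ℝ) := by
      have := hdT j
      have h2 : (0 : ℝ) ≤ (T : ℝ) := by positivity
      linarith
    have h1 : (∏ i, |((b j i : ℤ) : ℝ)|) * (∏ i, |((a j i : ℤ) : ℝ)|)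
        = ((∏ i, |((E i (t j) : ℤ) : ℝ)|) * (∏ i, |((A i (t j) : ℤ) : ℝ)|)) *
        ((e0r * n) ^ (s + 1) * ((Q j : ℤ) : ℝ)) := by
      rw [Fin.prod_univ_add (fun i => |((b j i : ℤ) : ℝ)|),
        Fin.prod_univ_add (fun i => |((a j i : ℤ) : ℝ)|)]
      simp only [hal, hbl, hbr]
      have h2 : (∏ l : Fin (s + 1), |((a j (Fin.natAdd r l) : ℤ) : ℝ)|) = ((Q j : ℤ) : ℝ) := by
        rw [Fin.prod_univ_succ, har0]
        simp only [hars]
        rw [hQr, hP, abs_of_pos hd0]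
        push_cast
        congr 1
        refine Finset.prod_congr rfl fun l _ => ?_
        exact abs_of_pos (by exact_mod_cast (hpprime l).pos)
      have h3 : (∏ _j : Fin (s + 1), |((e0 * (n : ℤ) : ℤ) : ℝ)|) = (e0r * n) ^ (s + 1) := by
        rw [Finset.prod_const, Finset.card_univ, Fintype.card_fin]
        congr 1
        push_cast
        rw [abs_mul, abs_of_nonneg (by positivity : (0 : ℝ) ≤ (n : ℝ))]
      rw [h2, h3]
      ring
    rw [h1]
    calc ((∏ i, |((E i (t j) : ℤ) : ℝ)|) * (∏ i, |((A i (t j) : ℤ) : ℝ)|))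
          * ((e0r * n) ^ (s + 1) * ((Q j : ℤ) : ℝ))
        ≤ (K * ((t j : ℤ) : ℝ) ^ S) * ((e0r * n) ^ (s + 1) * ((Q j : ℤ) : ℝ)) := by
          exact mul_le_mul_of_nonneg_right (hH _ (htT j)) (by positivity)
      _ = K1 * ((Q j : ℤ) : ℝ) ^ e := by
          rw [hK1, htr, he, pow_succ, ← pow_mul, Nat.mul_comm n S]; ring
  -- the product
  let G : ℤ → ℝ := fun t => (e0 : ℝ) * Real.log t + ∑ i, (E i t : ℝ) * Real.log (A i t)
  have hprod : ∀ j, (∏ i, ((a j i : ℝ) ^ (b j i))) = Real.exp (G (t j)) := by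
    intro j
    have ht1 : (1 : ℝ) ≤ ((t j : ℤ) : ℝ) := (hQ1 j).trans (hQt j)
    have ht0 : (0 : ℝ) < ((t j : ℤ) : ℝ) := by linarith
    have hApos : ∀ i, (0 : ℝ) < (A i (t j) : ℝ) := fun i => by
      have := hA (t j) (htT j) i
      exact_mod_cast (by omega : 0 < A i (t j))
    rw [Fin.prod_univ_add]
    simp only [hal, hbl, hbr]
    have h1 : (∏ i, ((A i (t j) : ℝ) ^ (E i (t j))))
        = Real.exp (∑ i, (E i (t j) : ℝ) * Real.log (A i (t j))) := by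
      rw [Real.exp_sum]
      refine Finset.prod_congr rfl fun i _ => ?_
      rw [mul_comm, ← Real.rpow_def_of_pos (hApos i), Real.rpow_intCast]
    have h2 : (∏ l : Fin (s + 1), ((a j (Fin.natAdd r l) : ℤ) : ℝ) ^ (e0 * (n : ℤ)))
        = Real.exp ((e0 : ℝ) * Real.log (t j)) := by
      rw [Finset.prod_zpow, Fin.prod_univ_succ, har0]
      simp only [hars]
      have h3 : ((d j : ℤ) : ℝ) * ∏ l : Fin s, (((p l : ℕ) : ℤ) : ℝ) = ((Q j : ℤ) : ℝ) := by
        rw [hQr, hP]; push_cast; rfl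
      rw [h3, mul_comm (e0 : ℝ), ← Real.rpow_def_of_pos ht0, Real.rpow_intCast, htr,
        ← zpow_natCast, ← zpow_mul, mul_comm]
    rw [h1, h2, ← Real.exp_add]
    congr 1
    simp only [G]; ring
  -- the violation
  have hviol : ∀ j, (∏ i, ((a j i : ℝ) ^ (b j i))) ≠ 1 ∧
      |(∏ i, ((a j i : ℝ) ^ (b j i))) - 1|
        < C * ((Finset.univ.sup fun i => (b j i).natAbs : ℕ) : ℝ) ^ θ /
          ((∏ i, |((b j i : ℤ) : ℝ)|) * (∏ i, |((a j i : ℤ) : ℝ)|)) ^ (1 + ε) := by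
    intro j
    have ht1 : (1 : ℝ) ≤ ((t j : ℤ) : ℝ) := (hQ1 j).trans (hQt j)
    have ht0 : (0 : ℝ) < ((t j : ℤ) : ℝ) := by linarith
    have hQ0 : (0 : ℝ) < ((Q j : ℤ) : ℝ) := by linarith [hQ1 j]
    have htK : K ≤ ((t j : ℤ) : ℝ) := hTK.trans ((hQT j).trans (hQt j))
    obtain ⟨hF1, hF2⟩ := hF (t j) (htT j)
    rw [hprod j]
    set F : ℝ := G (t j) with hFdef
    change F ≠ 0 at hF1
    change |F| ≤ _ at hF2
    have hFle : |F| ≤ 1 := by
      refine hF2.trans ?_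
      have h1 : ((t j : ℤ) : ℝ) ≤ ((t j : ℤ) : ℝ) ^ k := le_self_pow₀ ht1 (by omega)
      rw [← div_eq_mul_inv, div_le_one (by positivity)]
      linarith
    refine ⟨fun h => hF1 (by simpa using h), ?_⟩
    set B : ℝ := ((Finset.univ.sup fun i => (b j i).natAbs : ℕ) : ℝ) with hBdef
    have hBge : ((t j : ℤ) : ℝ) ≤ B := by
      obtain ⟨i, hi⟩ := hB1 (t j) (htT j)
      have h1 : (b j (Fin.castAdd (s + 1) i)).natAbs
          ≤ (Finset.univ.sup fun i => (b j i).natAbs) :=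
        Finset.le_sup (f := fun i => (b j i).natAbs) (Finset.mem_univ _)
      have h2 : (((b j (Fin.castAdd (s + 1) i)).natAbs : ℕ) : ℝ) ≤ B := by
        rw [hBdef]; exact_mod_cast h1
      rw [Nat.cast_natAbs, Int.cast_abs, hbl] at h2
      exact hi.trans h2
    have hBle : B ≤ K' * ((t j : ℤ) : ℝ) := by
      have h1 : ∀ i, (((b j i).natAbs : ℕ) : ℝ) ≤ K' * ((t j : ℤ) : ℝ) := by
        intro i
        rw [Nat.cast_natAbs, Int.cast_abs]
        refine Fin.addCases (fun i => ?_) (fun l => ?_) i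
        · rw [hbl]
          refine (hB2 _ (htT j) i).trans ?_
          exact mul_le_mul_of_nonneg_right (le_max_left _ _) ht0.le
        · rw [hbr]
          push_cast
          rw [abs_mul, abs_of_nonneg (by positivity : (0 : ℝ) ≤ (n : ℝ))]
          calc e0r * n ≤ K' * 1 := by rw [mul_one]; exact le_max_right _ _
            _ ≤ K' * ((t j : ℤ) : ℝ) := mul_le_mul_of_nonneg_left ht1 (by linarith)
      obtain ⟨i, _, hi⟩ := Finset.exists_mem_eq_sup Finset.univ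
        ⟨Fin.natAdd r 0, Finset.mem_univ _⟩ (fun i => (b j i).natAbs)
      rw [hBdef, hi]
      exact h1 i
    have hBθ : κ * ((t j : ℤ) : ℝ) ^ θ ≤ B ^ θ := by
      have hB0 : 0 < B := lt_of_lt_of_le ht0 hBge
      rcases le_or_gt 0 θ with hθ | hθ
      · calc κ * ((t j : ℤ) : ℝ) ^ θ ≤ 1 * ((t j : ℤ) : ℝ) ^ θ := by
              exact mul_le_mul_of_nonneg_right (min_le_left _ _) (Real.rpow_nonneg ht0.le _)
          _ = ((t j : ℤ) : ℝ) ^ θ := one_mul _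
          _ ≤ B ^ θ := Real.rpow_le_rpow ht0.le hBge hθ
      · calc κ * ((t j : ℤ) : ℝ) ^ θ ≤ K' ^ θ * ((t j : ℤ) : ℝ) ^ θ := by
              exact mul_le_mul_of_nonneg_right (min_le_right _ _) (Real.rpow_nonneg ht0.le _)
          _ = (K' * (t j : ℤ)) ^ θ := by rw [Real.mul_rpow (by linarith) ht0.le]
          _ ≤ B ^ θ := Real.rpow_le_rpow_of_nonpos hB0 hBle hθ.le
    have hH0 : 0 < (∏ i, |((b j i : ℤ) : ℝ)|) * (∏ i, |((a j i : ℤ) : ℝ)|) := by
      refine mul_pos (Finset.prod_pos fun i _ => ?_) (Finset.prod_pos fun i _ => ?_)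
      · exact abs_pos.mpr (by exact_mod_cast hbne j i)
      · have := hagt j i
        exact abs_pos.mpr (by exact_mod_cast (by omega : a j i ≠ 0))
    have hD : |Real.exp F - 1| ≤ 2 * K * ((Q j : ℤ) : ℝ) ^ (-((k : ℝ) * n)) := by
      have h1 : (((t j : ℤ) : ℝ) ^ k)⁻¹ = ((Q j : ℤ) : ℝ) ^ (-((k : ℝ) * n)) := by
        rw [Real.rpow_neg hQ0.le, htr, ← pow_mul, ← Real.rpow_natCast]
        congr 2
        push_cast; ring
      refine (Real.abs_exp_sub_one_le hFle).trans ?_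
      rw [← h1]
      calc 2 * |F| ≤ 2 * (K * (((t j : ℤ) : ℝ) ^ k)⁻¹) := by linarith
        _ = _ := by ring
    have hBθ' : κ * ((Q j : ℤ) : ℝ) ^ (θ * n) ≤ B ^ θ := by
      refine le_trans (le_of_eq ?_) hBθ
      congr 1
      rw [htr, ← Real.rpow_natCast, ← Real.rpow_mul hQ0.le, mul_comm]
    have hHe : (∏ i, |((b j i : ℤ) : ℝ)|) * (∏ i, |((a j i : ℤ) : ℝ)|)
        ≤ K1 * ((Q j : ℤ) : ℝ) ^ ((e : ℕ) : ℝ) := by
      rw [Real.rpow_natCast]; exact hheight j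
    exact final_ineq' K K1 κ ε C ((Q j : ℤ) : ℝ) ((k : ℝ) * n) (θ * n) (e : ℝ) _ _ _
      (by linarith) hK10.le hε hC hQ0 hH0 hD hBθ' hHe (hY0 _ (hTY.trans (hQT j)))
  -- counting
  let f : ℕ → ℝ := fun j => ∏ i, ((a j i : ℝ) ^ (b j i))
  have hdlt : ∀ j j', j < j' → t j < t j' := by
    intro j j' hjj
    have h1 : d j < d j' := by
      simp only [d]
      have h2 : (j : ℤ) < (j' : ℤ) := by exact_mod_cast hjj
      have h3 : (0 : ℤ) < (M' : ℤ) := by exact_mod_cast hM'1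
      nlinarith
    have h2 : Q j < Q j' := by
      simp only [Q]
      have h3 : (0 : ℤ) < (P : ℤ) := by exact_mod_cast hP1
      exact mul_lt_mul_of_pos_right h1 h3
    have h3 : 0 ≤ Q j := by
      have : ((0 : ℤ) : ℝ) ≤ ((Q j : ℤ) : ℝ) := by push_cast; linarith [hQ1 j]
      exact_mod_cast this
    exact pow_lt_pow_left₀ h2 h3 (by omega)
  have hne : ∀ j j', j < j' → f j ≠ f j' := by
    intro j j' hjj h
    simp only [f] at h
    rw [hprod, hprod] at h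
    exact hinj _ _ (htT j) (hdlt j j' hjj) (Real.exp_injective h)
  have hf : Function.Injective f := by
    intro j j' hjj
    rcases lt_trichotomy j j' with h | h | h
    · exact absurd hjj (hne j j' h)
    · exact h
    · exact absurd hjj.symm (hne j' j h)
  obtain ⟨κ', hκ', hev⟩ := count_of_height f hf
    (fun j => (∏ i, |((b j i : ℤ) : ℝ)|) * (∏ i, |((a j i : ℤ) : ℝ)|))
    (K1 * ((M' : ℝ) * P) ^ e) ((T : ℝ) + 1) e (by omega) (by positivity) (by positivity) (by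
      intro j
      refine (hheight j).trans ?_
      have h0 : K1 * ((M' : ℝ) * P) ^ e * ((j : ℝ) + ((T : ℝ) + 1)) ^ e
          = K1 * ((M' : ℝ) * P * ((j : ℝ) + ((T : ℝ) + 1))) ^ e := by
        rw [mul_pow ((M' : ℝ) * P)]; ring
      rw [h0]
      refine mul_le_mul_of_nonneg_left ?_ hK10.le
      refine pow_le_pow_left₀ (by linarith [hQ1 j]) ?_ e
      rw [hQr, hdr]
      have h1 : 1 + (M' : ℝ) * (T + j) ≤ (M' : ℝ) * ((j : ℝ) + (T + 1)) := by nlinarith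
      calc (1 + (M' : ℝ) * (T + j)) * P ≤ ((M' : ℝ) * ((j : ℝ) + (T + 1))) * P := by gcongr
        _ = _ := by ring)
  refine ⟨κ', hκ', ?_⟩
  filter_upwards [hev] with X hX
  obtain ⟨F, hF1, hF2⟩ := hX
  refine ⟨F, hF1, fun q hq => ?_⟩
  obtain ⟨j, hj, h2⟩ := hF2 q hq
  exact ⟨a j, b j, hj, ⟨hagt j, hcopa j, hbne j, (hviol j).1, (hviol j).2⟩, h2⟩

end Pool.Agent.H473.LW
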