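import Pool.Agent.H473.LW.Fam6
import Pool.Agent.H473.LW.Pow

/-!
# The family of six integers: power-many tuples
-/

set_option autoImplicit false

namespace Pool.Agent.H473.LW

open Finset Filter Topology

lemma A6_coprime_t (t : ℤ) (ht : ((5040 : ℕ) : ℤ) ∣ t - 1) (i : Fin 5) :
    IsCoprime t (A6 i t) := by
  obtain ⟨s, hs⟩ := ht
  have hs2 : t = 1 + 5040 * s := by push_cast at hs; linarith
  have key : ∀ c r : ℤ, 5040 = c * r → IsCoprime t c := by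
    intro c r hcr
    refine ⟨1, -(r * s), ?_⟩
    rw [hs2, hcr]; ring
  fin_cases i
  · have := (key 12 420 (by norm_num)).add_mul_left_right 1
    simpa [A6, add_comm] using this
  · have := (key (-12) (-420) (by norm_num)).add_mul_left_right 1
    simpa [A6, add_comm, sub_eq_add_neg] using this
  · have := (key 6 840 (by norm_num)).add_mul_left_right 1
    simpa [A6, add_comm] using this
  · have := (key (-6) (-840) (by norm_num)).add_mul_left_right 1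
    simpa [A6, add_comm, sub_eq_add_neg] using this
  · have := (key (-84) (-60) (by norm_num)).add_mul_left_right t
    have h2 : A6 4 t = -84 + t * t := by simp [A6]; ring
    exact h2 ▸ this

lemma F6_inj (t t' : ℤ) (ht : 10 ^ 12 ≤ t) (htt : t < t') :
    ((-240 : ℤ) : ℝ) * Real.log t + ∑ i, ((E6 i t : ℤ) : ℝ) * Real.log ((A6 i t : ℤ) : ℝ)
    ≠ ((-240 : ℤ) : ℝ) * Real.log t'
      + ∑ i, ((E6 i t' : ℤ) : ℝ) * Real.log ((A6 i t' : ℤ) : ℝ) := by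
  have ht7 : (10 : ℤ) ^ 7 ≤ t := le_trans (by norm_num) ht
  have ht7' : (10 : ℤ) ^ 7 ≤ t' := by omega
  have hT : (10 : ℝ) ^ 12 ≤ (t : ℝ) := by exact_mod_cast ht
  have hTT : (t : ℝ) + 1 ≤ (t' : ℝ) := by exact_mod_cast htt
  have hT0 : (0 : ℝ) < (t : ℝ) := by linarith [show (0 : ℝ) < 10 ^ 12 by norm_num]
  have hT0' : (0 : ℝ) < (t' : ℝ) := by linarith
  have hx : 12 / (t : ℝ) ≤ 1 / 10 ^ 10 := by
    rw [div_le_div_iff₀ hT0 (by norm_num)]
    linarith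
  have hx' : 12 / (t' : ℝ) ≤ 1 / 2 := by
    rw [div_le_div_iff₀ hT0' (by norm_num)]
    linarith [show (24 : ℝ) ≤ 10 ^ 12 by norm_num]
  have h1 := G6_bound (12 / (t : ℝ)) (by positivity) (hx.trans (by norm_num))
  have h2 := G6_bound (12 / (t' : ℝ)) (by positivity) hx'
  rw [← F6_eq t ht7] at h1
  rw [← F6_eq t' ht7'] at h2
  have key : -(((-240 : ℤ) : ℝ) * Real.log t'
      + ∑ i, ((E6 i t' : ℤ) : ℝ) * Real.log ((A6 i t' : ℤ) : ℝ))
      < -(((-240 : ℤ) : ℝ) * Real.log t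
        + ∑ i, ((E6 i t : ℤ) : ℝ) * Real.log ((A6 i t : ℤ) : ℝ)) := by
    refine expansion_lt 9 (7 / 48) (10 ^ 4) (1 / 24) (12 / (t : ℝ))
      (12 / (t' : ℝ)) _ _ (by norm_num) (by norm_num) (by norm_num) (by positivity)
      (by positivity) ?_ ?_ ?_ ?_
    · have h3 : 12 / (t' : ℝ) ≤ 12 / ((t : ℝ) + 1) :=
        div_le_div_of_nonneg_left (by norm_num) (by linarith) hTT
      refine h3.trans ?_
      have h4 : 12 / (t : ℝ) - 1 / 24 * (12 / (t : ℝ)) ^ 2 = (12 * t - 6) / (t : ℝ) ^ 2 := by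
        field_simp
        ring
      rw [h4, div_le_div_iff₀ (by linarith) (by positivity)]
      nlinarith [show (1 : ℝ) ≤ 10 ^ 12 by norm_num]
    · have h5 : 2 * (10 : ℝ) ^ 4 * (12 / (t : ℝ)) ≤ 2 * 10 ^ 4 * (1 / 10 ^ 10) := by gcongr
      refine lt_of_le_of_lt h5 ?_
      norm_num
    · rw [abs_le] at h1 ⊢
      constructor <;> linarith [h1.1, h1.2]
    · rw [abs_le] at h2 ⊢
      constructor <;> linarith [h2.1, h2.2]
  intro h
  rw [h] at key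
  exact lt_irrefl _ key

theorem many6 (s n : ℕ) (hn : 1 ≤ n) (θ ε : ℝ) (hε : 0 ≤ ε)
    (hlt : (10 * (n : ℝ) + 1) * (1 + ε) < (10 + θ) * n) (C : ℝ) (hC : 0 < C) :
    ∃ κ : ℝ, 0 < κ ∧ ∀ᶠ X : ℝ in atTop, ∃ F : Finset ℝ,
        κ * X ^ ((1 : ℝ) / ((10 * n + 1 : ℕ) : ℝ)) ≤ (F.card : ℝ) ∧
        ∀ x ∈ F, ∃ a b : Fin (5 + (s + 1)) → ℤ,
          (∏ i, ((a i : ℝ) ^ (b i))) = x ∧ ((∀ i, 1 < a i) ∧
          (Pairwise fun i j => IsCoprime (a i) (a j)) ∧ (∀ i, b i ≠ 0) ∧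
          (∏ i, ((a i : ℝ) ^ (b i))) ≠ 1 ∧
          |(∏ i, ((a i : ℝ) ^ (b i))) - 1|
            < C * ((Finset.univ.sup fun i => (b i).natAbs : ℕ) : ℝ) ^ θ /
              ((∏ i, |((b i : ℤ) : ℝ)|) * (∏ i, |((a i : ℤ) : ℝ)|)) ^ (1 + ε)) ∧
          (∏ i, |((b i : ℤ) : ℝ)|) * (∏ i, |((a i : ℤ) : ℝ)|) ≤ X := by
  have h7 : ∀ t : ℤ, 10 ^ 12 ≤ t → 10 ^ 7 ≤ t := fun t ht => le_trans (by norm_num) ht
  refine many A6 E6 (-240) (by norm_num) 10 10 (10 ^ 40) 5040 (by norm_num)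
    (10 ^ 12) (by norm_num) (fun t ht => A6_gt t (h7 t ht)) (fun t ht => E6_ne t (h7 t ht))
    ?_ A6_coprime_t (fun t ht => height6 t (h7 t ht)) ?_ ?_ (fun t ht => F6_main t (h7 t ht))
    F6_inj (by norm_num) s n hn θ ε hε (by push_cast; linarith) C hC
  · intro t ht i j hij
    refine A6_coprime t (Dvd.dvd.trans ?_ ht) i j hij
    norm_num
  · intro t ht
    have hT : (10 : ℝ) ^ 7 ≤ (t : ℝ) := by exact_mod_cast h7 t ht
    refine ⟨0, ?_⟩
    simp [E6]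
    rw [le_abs]
    right; linarith
  · intro t ht i
    have hT : (10 : ℝ) ^ 7 ≤ (t : ℝ) := by exact_mod_cast h7 t ht
    fin_cases i <;> simp [E6] <;> (try rw [abs_le]) <;> (try constructor) <;> linarith

end Pool.Agent.H473.LW
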