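import Pool.Agent.H473.LW.Pow

/-!
# Power-many counterexamples to the Lang-Waldschmidt inequality, with one more integer

The variable of the family is `t = d P ^ l`, where `P` is a product of fixed primes, `d` runs through a
residue class and `l` is chosen in terms of the bound for the height.
-/

set_option autoImplicit false

namespace Pool.Agent.H473.LW

open Filter Topology Finset

lemma tuple_props {r : ℕ} (A E : Fin r → ℤ → ℤ) (e0 : ℤ) (he0 : e0 ≠ 0) (S : ℕ) (K : ℝ)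
    (M : ℕ) (T0 : ℤ) (hK : 1 ≤ K)
    (hA : ∀ t, T0 ≤ t → ∀ i, 1 < A i t)
    (hE : ∀ t, T0 ≤ t → ∀ i, E i t ≠ 0)
    (hcop : ∀ t : ℤ, (M : ℤ) ∣ t - 1 → ∀ i j, i ≠ j → IsCoprime (A i t) (A j t))
    (hcop0 : ∀ t : ℤ, (M : ℤ) ∣ t - 1 → ∀ i, IsCoprime t (A i t))
    (hH : ∀ t : ℤ, T0 ≤ t →
      (∏ i, |((E i t : ℤ) : ℝ)|) * (∏ i, |((A i t : ℤ) : ℝ)|) ≤ K * (t : ℝ) ^ S)
    (hB1 : ∀ t : ℤ, T0 ≤ t → ∃ i, (t : ℝ) ≤ |((E i t : ℤ) : ℝ)|)
    (hB2 : ∀ t : ℤ, T0 ≤ t → ∀ i, |((E i t : ℤ) : ℝ)| ≤ K * t)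
    (s : ℕ) (p : Fin (s + 1) → ℕ) (hpinj : Function.Injective p)
    (hpprime : ∀ j, (p j).Prime) (hpm : ∀ j, p j ≡ 1 [MOD M])
    (P : ℕ) (hP : P = ∏ j, p j) (l : ℕ) (hl : 1 ≤ l) (d : ℤ) (hd : 1 < d)
    (hdM' : ((M * P : ℕ) : ℤ) ∣ d - 1) (t : ℤ) (ht : t = d * (P : ℤ) ^ l) (htT : T0 ≤ t) :
    ∃ a b : Fin (r + (s + 2)) → ℤ,
      (∀ i, 1 < a i) ∧ (Pairwise fun i j => IsCoprime (a i) (a j)) ∧ (∀ i, b i ≠ 0) ∧
      (∏ i, ((a i : ℝ) ^ (b i)))
        = Real.exp ((e0 : ℝ) * Real.log t + ∑ i, (E i t : ℝ) * Real.log (A i t)) ∧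
      (∏ i, |((b i : ℤ) : ℝ)|) * (∏ i, |((a i : ℤ) : ℝ)|)
        ≤ K * |((e0 : ℤ) : ℝ)| ^ (s + 2) * P * ((l : ℝ) ^ (s + 1) * (d : ℝ) * (t : ℝ) ^ S) ∧
      (t : ℝ) ≤ ((Finset.univ.sup fun i => (b i).natAbs : ℕ) : ℝ) ∧
      ((Finset.univ.sup fun i => (b i).natAbs : ℕ) : ℝ) ≤ max K |((e0 : ℤ) : ℝ)| * (t : ℝ) := by
  classical
  have hP1 : 1 ≤ P := by rw [hP]; exact Finset.prod_pos fun j _ => (hpprime j).pos
  have hP2 : 2 ≤ P := by
    have h1 : p 0 ∣ P := by rw [hP]; exact Finset.dvd_prod_of_mem _ (Finset.mem_univ _)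
    exact (hpprime 0).two_le.trans (Nat.le_of_dvd hP1 h1)
  have hPmod : (M : ℤ) ∣ (P : ℤ) - 1 := by
    have : ∀ (u : Finset (Fin (s + 1))), (∏ j ∈ u, p j) ≡ 1 [MOD M] := by
      intro u
      induction u using Finset.induction_on with
      | empty => simp; exact Nat.ModEq.refl 1
      | insert i u hi ih =>
        rw [Finset.prod_insert hi]
        exact (Nat.ModEq.mul (hpm i) ih)
    have h1 := (Nat.modEq_iff_dvd.mp (this Finset.univ).symm)
    rw [hP]; simpa using h1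
  have hMM' : (M : ℤ) ∣ ((M * P : ℕ) : ℤ) := ⟨P, by push_cast; ring⟩
  have htM : (M : ℤ) ∣ t - 1 := by
    have h1 : t - 1 = (d - 1) * (P : ℤ) ^ l + ((P : ℤ) ^ l - 1) := by rw [ht]; ring
    rw [h1]
    refine dvd_add (Dvd.dvd.mul_right (hMM'.trans hdM') _) ?_
    have h2 := sub_dvd_pow_sub_pow (P : ℤ) 1 l
    rw [one_pow] at h2
    exact hPmod.trans h2
  have hdt : d ∣ t := by rw [ht]; exact Dvd.intro _ rfl
  have hpP : ∀ j, ((p j : ℕ) : ℤ) ∣ (P : ℤ) := fun j => by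
    have h1 : p j ∣ P := by rw [hP]; exact Finset.dvd_prod_of_mem _ (Finset.mem_univ _)
    exact_mod_cast h1
  have hpt : ∀ j, ((p j : ℕ) : ℤ) ∣ t := fun j => by
    rw [ht]
    exact Dvd.dvd.mul_left ((hpP j).trans (dvd_pow_self _ (by omega))) _
  have hdp : ∀ j, IsCoprime d ((p j : ℕ) : ℤ) := fun j => by
    have h2 : ((p j : ℕ) : ℤ) ∣ ((M * P : ℕ) : ℤ) := by
      push_cast
      exact Dvd.dvd.mul_left (hpP j) _
    obtain ⟨u, hu⟩ := h2.trans hdM'
    exact ⟨1, -u, by linear_combination hu⟩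
  set e0r : ℝ := |((e0 : ℤ) : ℝ)| with he0r
  have he0r1 : 1 ≤ e0r := by
    rw [he0r, ← Int.cast_abs]; exact_mod_cast Int.one_le_abs he0
  have hd0 : (0 : ℝ) < (d : ℝ) := by exact_mod_cast (by omega : 0 < d)
  have hd1 : (1 : ℝ) ≤ (d : ℝ) := by exact_mod_cast hd.le
  have hPr : (2 : ℝ) ≤ (P : ℝ) := by exact_mod_cast hP2
  have htr : (t : ℝ) = (d : ℝ) * (P : ℝ) ^ l := by rw [ht]; push_cast; ring
  have hlr : (1 : ℝ) ≤ (l : ℝ) := by exact_mod_cast hl
  have hlP : (l : ℝ) ≤ (P : ℝ) ^ l := by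
    have h1 : l < P ^ l := Nat.lt_pow_self (by omega)
    exact_mod_cast h1.le
  have hlt : (l : ℝ) ≤ (t : ℝ) := by
    rw [htr]
    calc (l : ℝ) ≤ (P : ℝ) ^ l := hlP
      _ = 1 * (P : ℝ) ^ l := (one_mul _).symm
      _ ≤ (d : ℝ) * (P : ℝ) ^ l := mul_le_mul_of_nonneg_right hd1 (by positivity)
  have ht1 : (1 : ℝ) ≤ (t : ℝ) := hlr.trans hlt
  have ht0 : (0 : ℝ) < (t : ℝ) := by linarith
  let a : Fin (r + (s + 2)) → ℤ :=
    Fin.append (fun i => A i t) (Fin.cons d (fun j : Fin (s + 1) => ((p j : ℕ) : ℤ)))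
  let b : Fin (r + (s + 2)) → ℤ :=
    Fin.append (fun i => E i t) (Fin.cons e0 (fun _ : Fin (s + 1) => e0 * (l : ℤ)))
  have hal : ∀ i, a (Fin.castAdd (s + 2) i) = A i t := fun i => by
    simp only [a]; rw [Fin.append_left]
  have har0 : a (Fin.natAdd r 0) = d := by
    simp only [a]; rw [Fin.append_right]; rfl
  have hars : ∀ j, a (Fin.natAdd r (Fin.succ j)) = ((p j : ℕ) : ℤ) := fun j => by
    simp only [a]; rw [Fin.append_right]; rfl
  have hbl : ∀ i, b (Fin.castAdd (s + 2) i) = E i t := fun i => by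
    simp only [b]; rw [Fin.append_left]
  have hbr0 : b (Fin.natAdd r 0) = e0 := by
    simp only [b]; rw [Fin.append_right]; rfl
  have hbrs : ∀ j, b (Fin.natAdd r (Fin.succ j)) = e0 * (l : ℤ) := fun j => by
    simp only [b]; rw [Fin.append_right]; rfl
  refine ⟨a, b, ?_, ?_, ?_, ?_, ?_, ?_, ?_⟩
  · intro i
    refine Fin.addCases (fun i => ?_) (fun j => ?_) i
    · rw [hal]; exact hA _ htT i
    · refine Fin.cases ?_ (fun j => ?_) j
      · rw [har0]; exact hd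
      · rw [hars]; exact_mod_cast (hpprime j).one_lt
  · intro i j
    have hx : ∀ i, ∀ j : Fin (s + 2), IsCoprime (a (Fin.castAdd (s + 2) i)) (a (Fin.natAdd r j)) := by
      intro i j
      rw [hal]
      have h0 := hcop0 t htM i
      refine Fin.cases ?_ (fun j => ?_) j
      · rw [har0]; exact (h0.of_isCoprime_of_dvd_left hdt).symm
      · rw [hars]; exact (h0.of_isCoprime_of_dvd_left (hpt j)).symm
    refine Fin.addCases (fun i => ?_) (fun i => ?_) i <;>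
      refine Fin.addCases (fun j => ?_) (fun j => ?_) j
    · intro hij
      show IsCoprime (a _) (a _)
      rw [hal, hal]
      exact hcop _ htM i j (fun h => hij (by rw [h]))
    · intro _; exact hx i j
    · intro _; exact (hx j i).symm
    · intro hij
      show IsCoprime (a _) (a _)
      have hne : i ≠ j := fun h => hij (by rw [h])
      clear hij
      revert hne
      refine Fin.cases ?_ (fun i => ?_) i <;> refine Fin.cases ?_ (fun j => ?_) j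
      · intro h; exact absurd rfl h
      · intro _; rw [har0, hars]; exact hdp j
      · intro _; rw [har0, hars]; exact (hdp i).symm
      · intro h
        rw [hars, hars]
        have hne : p i ≠ p j := fun h' => h (by rw [hpinj h'])
        exact Nat.isCoprime_iff_coprime.mpr
          ((Nat.coprime_primes (hpprime i) (hpprime j)).mpr hne)
  · intro i
    refine Fin.addCases (fun i => ?_) (fun j => ?_) i
    · rw [hbl]; exact hE _ htT i
    · refine Fin.cases ?_ (fun j => ?_) j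
      · rw [hbr0]; exact he0
      · rw [hbrs]; exact mul_ne_zero he0 (by exact_mod_cast (by omega : l ≠ 0))
  · have hApos : ∀ i, (0 : ℝ) < (A i t : ℝ) := fun i => by
      have := hA t htT i
      exact_mod_cast (by omega : 0 < A i t)
    rw [Fin.prod_univ_add]
    simp only [hal, hbl]
    have h1 : (∏ i, ((A i t : ℝ) ^ (E i t)))
        = Real.exp (∑ i, (E i t : ℝ) * Real.log (A i t)) := by
      rw [Real.exp_sum]
      refine Finset.prod_congr rfl fun i _ => ?_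
      rw [mul_comm, ← Real.rpow_def_of_pos (hApos i), Real.rpow_intCast]
    have h2 : (∏ j : Fin (s + 2), ((a (Fin.natAdd r j) : ℤ) : ℝ) ^ (b (Fin.natAdd r j)))
        = Real.exp ((e0 : ℝ) * Real.log t) := by
      rw [Fin.prod_univ_succ, har0, hbr0]
      simp only [hars, hbrs]
      rw [Finset.prod_zpow]
      have h3 : (∏ j : Fin (s + 1), (((p j : ℕ) : ℤ) : ℝ)) = (P : ℝ) := by
        rw [hP]; push_cast; rfl
      rw [h3, mul_comm (e0 : ℝ), ← Real.rpow_def_of_pos ht0, Real.rpow_intCast, htr,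
        mul_zpow, ← zpow_natCast (P : ℝ) l, ← zpow_mul, mul_comm e0]
    rw [h1, h2, ← Real.exp_add]
    congr 1
    ring
  · have h1 : (∏ i, |((b i : ℤ) : ℝ)|) * (∏ i, |((a i : ℤ) : ℝ)|)
        = ((∏ i, |((E i t : ℤ) : ℝ)|) * (∏ i, |((A i t : ℤ) : ℝ)|)) *
        (e0r * (e0r * l) ^ (s + 1) * ((d : ℝ) * P)) := by
      rw [Fin.prod_univ_add (fun i => |((b i : ℤ) : ℝ)|),
        Fin.prod_univ_add (fun i => |((a i : ℤ) : ℝ)|)]
      simp only [hal, hbl]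
      have h2 : (∏ j : Fin (s + 2), |((a (Fin.natAdd r j) : ℤ) : ℝ)|) = (d : ℝ) * P := by
        rw [Fin.prod_univ_succ, har0]
        simp only [hars]
        rw [hP, abs_of_pos hd0]
        push_cast
        congr 1
        refine Finset.prod_congr rfl fun j _ => ?_
        exact abs_of_pos (by exact_mod_cast (hpprime j).pos)
      have h3 : (∏ j : Fin (s + 2), |((b (Fin.natAdd r j) : ℤ) : ℝ)|)
          = e0r * (e0r * l) ^ (s + 1) := by
        rw [Fin.prod_univ_succ, hbr0]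
        simp only [hbrs]
        rw [Finset.prod_const, Finset.card_univ, Fintype.card_fin]
        congr 2
        push_cast
        rw [abs_mul, abs_of_nonneg (by positivity : (0 : ℝ) ≤ (l : ℝ))]
      rw [h2, h3]
      ring
    rw [h1]
    calc ((∏ i, |((E i t : ℤ) : ℝ)|) * (∏ i, |((A i t : ℤ) : ℝ)|))
          * (e0r * (e0r * l) ^ (s + 1) * ((d : ℝ) * P))
        ≤ (K * (t : ℝ) ^ S) * (e0r * (e0r * l) ^ (s + 1) * ((d : ℝ) * P)) := by
          exact mul_le_mul_of_nonneg_right (hH _ htT) (by positivity)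
      _ = K * e0r ^ (s + 2) * P * ((l : ℝ) ^ (s + 1) * (d : ℝ) * (t : ℝ) ^ S) := by ring
  · obtain ⟨i, hi⟩ := hB1 t htT
    have h1 : (b (Fin.castAdd (s + 2) i)).natAbs ≤ (Finset.univ.sup fun i => (b i).natAbs) :=
      Finset.le_sup (f := fun i => (b i).natAbs) (Finset.mem_univ _)
    have h2 : (((b (Fin.castAdd (s + 2) i)).natAbs : ℕ) : ℝ)
        ≤ ((Finset.univ.sup fun i => (b i).natAbs : ℕ) : ℝ) := by
      exact_mod_cast h1
    rw [Nat.cast_natAbs, Int.cast_abs, hbl] at h2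
    exact hi.trans h2
  · have h1 : ∀ i, (((b i).natAbs : ℕ) : ℝ) ≤ max K e0r * (t : ℝ) := by
      intro i
      rw [Nat.cast_natAbs, Int.cast_abs]
      refine Fin.addCases (fun i => ?_) (fun j => ?_) i
      · rw [hbl]
        refine (hB2 _ htT i).trans ?_
        exact mul_le_mul_of_nonneg_right (le_max_left _ _) ht0.le
      · refine Fin.cases ?_ (fun j => ?_) j
        · rw [hbr0]
          calc |((e0 : ℤ) : ℝ)| = e0r * 1 := by rw [mul_one]
            _ ≤ max K e0r * (t : ℝ) := mul_le_mul (le_max_right _ _) ht1 (by positivity)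
                (by positivity)
        · rw [hbrs]
          push_cast
          rw [abs_mul, abs_of_nonneg (by positivity : (0 : ℝ) ≤ (l : ℝ))]
          exact mul_le_mul (le_max_right _ _) hlt (by positivity) (by positivity)
    obtain ⟨i, _, hi⟩ := Finset.exists_mem_eq_sup Finset.univ
      ⟨Fin.natAdd r 0, Finset.mem_univ _⟩ (fun i => (b i).natAbs)
    rw [hi]
    exact h1 i

lemma log_small (c η : ℝ) (j : ℕ) (hη : 0 < η) :
    ∀ᶠ x : ℝ in atTop, (c * Real.log x) ^ j ≤ x ^ η := by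
  have h := (isLittleO_log_rpow_rpow_atTop (j : ℝ) hη).def
    (show (0 : ℝ) < 1 / (1 + |c| ^ j) by positivity)
  filter_upwards [h, eventually_gt_atTop (1 : ℝ)] with x hx hx1
  have hl : 0 < Real.log x := Real.log_pos hx1
  have hxp : 0 < x ^ η := Real.rpow_pos_of_pos (by linarith) _
  rw [Real.rpow_natCast, Real.norm_of_nonneg (by positivity), Real.norm_of_nonneg hxp.le] at hx
  have h1 : c ^ j ≤ |c| ^ j := by rw [← abs_pow]; exact le_abs_self _
  have h2 : 0 ≤ |c| ^ j := by positivity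
  calc (c * Real.log x) ^ j = c ^ j * Real.log x ^ j := mul_pow _ _ _
    _ ≤ (1 + |c| ^ j) * (1 / (1 + |c| ^ j) * x ^ η) := by
        refine mul_le_mul (by linarith) hx (by positivity) (by linarith)
    _ = x ^ η := by field_simp

theorem many2 {r : ℕ} (A E : Fin r → ℤ → ℤ) (e0 : ℤ) (he0 : e0 ≠ 0) (k S : ℕ) (K : ℝ)
    (M : ℕ) (hM : M ≠ 0) (T0 : ℤ) (hK : 1 ≤ K)
    (hA : ∀ t, T0 ≤ t → ∀ i, 1 < A i t)
    (hE : ∀ t, T0 ≤ t → ∀ i, E i t ≠ 0)
    (hcop : ∀ t : ℤ, (M : ℤ) ∣ t - 1 → ∀ i j, i ≠ j → IsCoprime (A i t) (A j t))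
    (hcop0 : ∀ t : ℤ, (M : ℤ) ∣ t - 1 → ∀ i, IsCoprime t (A i t))
    (hH : ∀ t : ℤ, T0 ≤ t →
      (∏ i, |((E i t : ℤ) : ℝ)|) * (∏ i, |((A i t : ℤ) : ℝ)|) ≤ K * (t : ℝ) ^ S)
    (hB1 : ∀ t : ℤ, T0 ≤ t → ∃ i, (t : ℝ) ≤ |((E i t : ℤ) : ℝ)|)
    (hB2 : ∀ t : ℤ, T0 ≤ t → ∀ i, |((E i t : ℤ) : ℝ)| ≤ K * t)
    (hF : ∀ t : ℤ, T0 ≤ t →
      (e0 : ℝ) * Real.log t + ∑ i, (E i t : ℝ) * Real.log (A i t) ≠ 0 ∧
      |(e0 : ℝ) * Real.log t + ∑ i, (E i t : ℝ) * Real.log (A i t)| ≤ K * ((t : ℝ) ^ k)⁻¹)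
    (hinj : ∀ t t' : ℤ, T0 ≤ t → t < t' →
      (e0 : ℝ) * Real.log t + ∑ i, (E i t : ℝ) * Real.log (A i t)
        ≠ (e0 : ℝ) * Real.log t' + ∑ i, (E i t' : ℝ) * Real.log (A i t'))
    (hk : 1 ≤ k)
    (s : ℕ) (θ ε β τ : ℝ) (hε : 0 ≤ ε) (hβ : 0 ≤ β) (hβτ : β < τ) (hτ1 : (S : ℝ) * τ + β < 1)
    (hlt : ((S : ℝ) * τ + β) * (1 + ε) < ((k : ℝ) + θ) * τ) (C : ℝ) (hC : 0 < C) :
    ∀ᶠ X : ℝ in atTop, ∃ F : Finset ℝ,
        X ^ β ≤ (F.card : ℝ) ∧
        ∀ x ∈ F, ∃ a b : Fin (r + (s + 2)) → ℤ,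
          (∏ i, ((a i : ℝ) ^ (b i))) = x ∧ ((∀ i, 1 < a i) ∧
          (Pairwise fun i j => IsCoprime (a i) (a j)) ∧ (∀ i, b i ≠ 0) ∧
          (∏ i, ((a i : ℝ) ^ (b i))) ≠ 1 ∧
          |(∏ i, ((a i : ℝ) ^ (b i))) - 1|
            < C * ((Finset.univ.sup fun i => (b i).natAbs : ℕ) : ℝ) ^ θ /
              ((∏ i, |((b i : ℤ) : ℝ)|) * (∏ i, |((a i : ℤ) : ℝ)|)) ^ (1 + ε)) ∧
          (∏ i, |((b i : ℤ) : ℝ)|) * (∏ i, |((a i : ℤ) : ℝ)|) ≤ X := by
  classical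
  obtain ⟨p, hpinj, hp⟩ := exists_primes M 0 s hM
  obtain ⟨P, hP⟩ : ∃ P : ℕ, P = ∏ j, p j := ⟨_, rfl⟩
  have hP1 : 1 ≤ P := by rw [hP]; exact Finset.prod_pos fun j _ => (hp j).1.pos
  have hP2 : 2 ≤ P := by
    have h1 : p 0 ∣ P := by rw [hP]; exact Finset.dvd_prod_of_mem _ (Finset.mem_univ _)
    exact (hp 0).1.two_le.trans (Nat.le_of_dvd hP1 h1)
  have hPr : (2 : ℝ) ≤ (P : ℝ) := by exact_mod_cast hP2
  have hP0 : (0 : ℝ) < (P : ℝ) := by linarith
  have hlogP : 0 < Real.log P := Real.log_pos (by linarith)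
  obtain ⟨M', hM'⟩ : ∃ M' : ℕ, M' = M * P := ⟨_, rfl⟩
  have hM'1 : 1 ≤ M' := by
    rw [hM']; exact Nat.one_le_iff_ne_zero.mpr (Nat.mul_ne_zero hM (by omega))
  have hM'r : (1 : ℝ) ≤ (M' : ℝ) := by exact_mod_cast hM'1
  -- constants
  set e0r : ℝ := |((e0 : ℤ) : ℝ)| with he0r
  have he0r1 : 1 ≤ e0r := by
    rw [he0r, ← Int.cast_abs]; exact_mod_cast Int.one_le_abs he0
  set K' : ℝ := max K e0r with hK'
  have hK'1 : 1 ≤ K' := hK.trans (le_max_left _ _)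
  obtain ⟨γ, hγ⟩ : ∃ γ : ℝ, γ = τ - β := ⟨_, rfl⟩
  have hγ0 : 0 < γ := by linarith
  obtain ⟨σ, hσ⟩ : ∃ σ : ℝ, σ = (S : ℝ) * τ + β := ⟨_, rfl⟩
  obtain ⟨η, hη0, hη1, hη2⟩ : ∃ η : ℝ, 0 < η ∧ σ + η < 1 ∧ (σ + η) * (1 + ε) < ((k : ℝ) + θ) * τ := by
    have h1 : 0 < 1 - σ := by rw [hσ]; linarith
    have h2 : 0 < ((k : ℝ) + θ) * τ - σ * (1 + ε) := by rw [hσ]; linarith
    have h3 : 0 < 1 + ε := by linarith
    refine ⟨min ((1 - σ) / 2) ((((k : ℝ) + θ) * τ - σ * (1 + ε)) / (2 * (1 + ε))), ?_, ?_, ?_⟩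
    · exact lt_min (by linarith) (by positivity)
    · have := min_le_left ((1 - σ) / 2) ((((k : ℝ) + θ) * τ - σ * (1 + ε)) / (2 * (1 + ε)))
      linarith
    · have h4 := min_le_right ((1 - σ) / 2) ((((k : ℝ) + θ) * τ - σ * (1 + ε)) / (2 * (1 + ε)))
      rw [le_div_iff₀ (by positivity)] at h4
      nlinarith
  obtain ⟨K1, hK1⟩ : ∃ K1 : ℝ, K1 = K * e0r ^ (s + 2) * P := ⟨_, rfl⟩
  have hK10 : 0 < K1 := by rw [hK1]; positivity
  obtain ⟨K2, hK2⟩ : ∃ K2 : ℝ, K2 = K1 * (6 * (M' : ℝ)) ^ (S + 1) := ⟨_, rfl⟩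
  have hK20 : 0 < K2 := by rw [hK2]; positivity
  obtain ⟨κ, hκ⟩ : ∃ κ : ℝ, κ = min ((P : ℝ) ^ (-θ)) ((K' * (6 * M')) ^ θ) := ⟨_, rfl⟩
  have hκ0 : 0 < κ := by
    rw [hκ]
    exact lt_min (Real.rpow_pos_of_pos hP0 _) (Real.rpow_pos_of_pos (by positivity) _)
  -- the conditions on `X`
  have hτ0 : 0 < τ := by linarith
  have ev1 := (tendsto_rpow_atTop hτ0).eventually_ge_atTop ((P : ℝ) * (|(T0 : ℝ)| + K))
  have ev2 := (tendsto_rpow_atTop hγ0).eventually_ge_atTop (P : ℝ)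
  have ev3 := log_small (γ / Real.log P) η (s + 1) hη0
  have ev4 := (tendsto_rpow_atTop (show 0 < 1 - (σ + η) by linarith)).eventually_ge_atTop K2
  have ev5 : ∀ᶠ X : ℝ in atTop, 2 * (K * (P : ℝ) ^ k) * K2 ^ (1 + ε)
      * X ^ (-((k : ℝ) * τ + θ * τ - (σ + η) * (1 + ε))) < C * κ := by
    have hlim : Tendsto (fun y : ℝ => 2 * (K * (P : ℝ) ^ k) * K2 ^ (1 + ε)
        * y ^ (-((k : ℝ) * τ + θ * τ - (σ + η) * (1 + ε)))) atTop
        (𝓝 (2 * (K * (P : ℝ) ^ k) * K2 ^ (1 + ε) * 0)) :=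
      (tendsto_rpow_neg_atTop (by linarith)).const_mul _
    rw [mul_zero] at hlim
    exact hlim.eventually_lt_const (by positivity)
  filter_upwards [ev1, ev2, ev3, ev4, ev5, eventually_ge_atTop (1 : ℝ)] with X h1 h2 h3 h4 h5 hX1
  have hX0 : 0 < X := by linarith
  -- the number `N` and the exponent `l`
  obtain ⟨N, hN⟩ : ∃ N : ℕ, N = ⌈X ^ β⌉₊ := ⟨_, rfl⟩
  have hXβ1 : 1 ≤ X ^ β := Real.one_le_rpow hX1 hβ
  have hN1 : X ^ β ≤ (N : ℝ) := by rw [hN]; exact Nat.le_ceil _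
  have hN2 : (N : ℝ) ≤ 2 * X ^ β := by
    have := Nat.ceil_lt_add_one (show 0 ≤ X ^ β by linarith)
    rw [← hN] at this
    linarith
  obtain ⟨l, hl⟩ : ∃ l : ℕ, l = ⌊γ * Real.log X / Real.log P⌋₊ := ⟨_, rfl⟩
  have hlogX : 0 ≤ Real.log X := Real.log_nonneg hX1
  have hl1 : (l : ℝ) ≤ γ * Real.log X / Real.log P := by
    rw [hl]; exact Nat.floor_le (by positivity)
  have hl2 : γ * Real.log X / Real.log P < (l : ℝ) + 1 := by
    rw [hl]; exact Nat.lt_floor_add_one _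
  have hPl1 : (P : ℝ) ^ l ≤ X ^ γ := by
    rw [← Real.rpow_natCast, Real.rpow_def_of_pos hP0, Real.rpow_def_of_pos hX0]
    refine Real.exp_le_exp.mpr ?_
    rw [le_div_iff₀ hlogP] at hl1
    linarith
  have hPl2 : X ^ γ ≤ (P : ℝ) * (P : ℝ) ^ l := by
    have : (P : ℝ) * (P : ℝ) ^ l = (P : ℝ) ^ ((l : ℝ) + 1) := by
      rw [Real.rpow_add hP0, Real.rpow_natCast, Real.rpow_one]; ring
    rw [this, Real.rpow_def_of_pos hP0, Real.rpow_def_of_pos hX0]
    refine Real.exp_le_exp.mpr ?_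
    rw [div_lt_iff₀ hlogP] at hl2
    linarith
  have hl0 : 1 ≤ l := by
    by_contra hcon
    have hl00 : l = 0 := by omega
    rw [hl00] at hl2
    rw [div_lt_iff₀ hlogP] at hl2
    have h6 : Real.log P ≤ γ * Real.log X := by
      rw [← Real.log_rpow hX0]
      exact Real.log_le_log hP0 h2
    push_cast at hl2
    linarith
  have hls : (l : ℝ) ^ (s + 1) ≤ X ^ η := by
    refine le_trans (pow_le_pow_left₀ (by positivity) hl1 _) ?_
    have : γ * Real.log X / Real.log P = γ / Real.log P * Real.log X := by ring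
    rw [this]; exact h3
  -- the sequence
  let d : ℕ → ℤ := fun j => 1 + (M' : ℤ) * (N + j)
  let t : ℕ → ℤ := fun j => d j * (P : ℤ) ^ l
  have hNr : (1 : ℝ) ≤ (N : ℝ) := hXβ1.trans hN1
  have hN0 : 1 ≤ N := by exact_mod_cast hNr
  have hdr : ∀ j, ((d j : ℤ) : ℝ) = 1 + (M' : ℝ) * (N + j) := fun j => by
    simp only [d]; push_cast; ring
  have hd1 : ∀ j, 1 < d j := fun j => by
    have h6 : (1 : ℝ) < ((d j : ℤ) : ℝ) := by
      rw [hdr]
      have : (0 : ℝ) ≤ (j : ℝ) := by positivity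
      nlinarith
    exact_mod_cast h6
  have hdM : ∀ j, ((M * P : ℕ) : ℤ) ∣ d j - 1 := fun j => by
    rw [← hM']; exact ⟨N + j, by simp only [d]; ring⟩
  have hdlo : ∀ j, X ^ β ≤ ((d j : ℤ) : ℝ) := fun j => by
    rw [hdr]
    have : (0 : ℝ) ≤ (j : ℝ) := by positivity
    nlinarith
  have hdhi : ∀ j, j < N → ((d j : ℤ) : ℝ) ≤ 6 * M' * X ^ β := fun j hj => by
    rw [hdr]
    have hj' : (j : ℝ) ≤ (N : ℝ) := by exact_mod_cast hj.le
    have h6 : 1 + (M' : ℝ) * (N + j) ≤ 3 * M' * N := by nlinarith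
    have h7 : 3 * (M' : ℝ) * N ≤ 3 * M' * (2 * X ^ β) := by gcongr
    linarith
  have hXτ : X ^ τ = X ^ β * X ^ γ := by
    rw [← Real.rpow_add hX0, hγ]; congr 1; ring
  have htr : ∀ j, ((t j : ℤ) : ℝ) = ((d j : ℤ) : ℝ) * (P : ℝ) ^ l := fun j => by
    simp only [t]; push_cast; ring
  have htlo : ∀ j, X ^ τ ≤ (P : ℝ) * ((t j : ℤ) : ℝ) := fun j => by
    rw [htr, hXτ]
    calc X ^ β * X ^ γ ≤ ((d j : ℤ) : ℝ) * ((P : ℝ) * (P : ℝ) ^ l) :=
          mul_le_mul (hdlo j) hPl2 (Real.rpow_nonneg hX0.le _)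
            (le_trans (Real.rpow_nonneg hX0.le _) (hdlo j))
      _ = _ := by ring
  have hthi : ∀ j, j < N → ((t j : ℤ) : ℝ) ≤ 6 * M' * X ^ τ := fun j hj => by
    rw [htr, hXτ]
    calc ((d j : ℤ) : ℝ) * (P : ℝ) ^ l ≤ (6 * M' * X ^ β) * X ^ γ :=
          mul_le_mul (hdhi j hj) hPl1 (by positivity) (by positivity)
      _ = _ := by ring
  have htbig : ∀ j, |(T0 : ℝ)| + K ≤ ((t j : ℤ) : ℝ) := fun j =>
    le_of_mul_le_mul_left (h1.trans (htlo j)) hP0
  have htT : ∀ j, T0 ≤ t j := fun j => by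
    have h6 : (T0 : ℝ) ≤ ((t j : ℤ) : ℝ) := by
      have := htbig j
      have := le_abs_self (T0 : ℝ)
      linarith
    exact_mod_cast h6
  have htK : ∀ j, K ≤ ((t j : ℤ) : ℝ) := fun j => by
    have := htbig j
    have := abs_nonneg (T0 : ℝ)
    linarith
  have hprops := fun j => tuple_props A E e0 he0 S K M T0 hK hA hE hcop hcop0 hH hB1 hB2 s p hpinj
    (fun i => (hp i).1) (fun i => (hp i).2.2) P hP l hl0 (d j) (hd1 j) (hdM j) (t j) rfl (htT j)
  choose a b ha hcopa hbne hprod hheight hBge hBle using hprops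
  let G : ℤ → ℝ := fun t => (e0 : ℝ) * Real.log t + ∑ i, (E i t : ℝ) * Real.log (A i t)
  have hlt' : ∀ j j', j < j' → t j < t j' := by
    intro j j' hjj
    have h6 : d j < d j' := by
      simp only [d]
      have h7 : (j : ℤ) < (j' : ℤ) := by exact_mod_cast hjj
      have h8 : (0 : ℤ) < (M' : ℤ) := by exact_mod_cast hM'1
      nlinarith
    simp only [t]
    have h9 : (0 : ℤ) < (P : ℤ) ^ l := by
      have : (0 : ℤ) < (P : ℤ) := by exact_mod_cast hP1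
      positivity
    exact mul_lt_mul_of_pos_right h6 h9
  let f : ℕ → ℝ := fun j => ∏ i, ((a j i : ℝ) ^ (b j i))
  have hne : ∀ j j', j < j' → f j ≠ f j' := by
    intro j j' hjj h
    simp only [f] at h
    rw [hprod, hprod] at h
    exact hinj _ _ (htT j) (hlt' j j' hjj) (Real.exp_injective h)
  have hf : Function.Injective f := by
    intro j j' hjj
    rcases lt_trichotomy j j' with h | h | h
    · exact absurd hjj (hne j j' h)
    · exact h
    · exact absurd hjj.symm (hne j' j h)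
  refine ⟨(Finset.range N).image f, ?_, ?_⟩
  · rw [Finset.card_image_of_injective _ hf, Finset.card_range]; exact hN1
  · intro x hx
    obtain ⟨j, hj, rfl⟩ := Finset.mem_image.mp hx
    have hjN : j < N := Finset.mem_range.mp hj
    have ht1 : (1 : ℝ) ≤ ((t j : ℤ) : ℝ) := hK.trans (htK j)
    have ht0 : (0 : ℝ) < ((t j : ℤ) : ℝ) := by linarith
    have hd0 : (0 : ℝ) < ((d j : ℤ) : ℝ) := lt_of_lt_of_le (by linarith) (hdlo j)
    -- the height
    have hHe : (∏ i, |((b j i : ℤ) : ℝ)|) * (∏ i, |((a j i : ℤ) : ℝ)|) ≤ K2 * X ^ (σ + η) := by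
      refine (hheight j).trans ?_
      rw [← hK1]
      calc K1 * ((l : ℝ) ^ (s + 1) * ((d j : ℤ) : ℝ) * ((t j : ℤ) : ℝ) ^ S)
          ≤ K1 * (X ^ η * (6 * M' * X ^ β) * (6 * M' * X ^ τ) ^ S) := by
            have hd' := hdhi j hjN
            have ht' := hthi j hjN
            gcongr
        _ = K2 * X ^ (σ + η) := by
            have h6 : X ^ (σ + η) = (X ^ τ) ^ S * X ^ β * X ^ η := by
              rw [← Real.rpow_natCast (X ^ τ) S, ← Real.rpow_mul hX0.le, ← Real.rpow_add hX0,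
                ← Real.rpow_add hX0, hσ]
              congr 1; ring
            rw [h6, hK2, pow_succ, mul_pow (6 * (M' : ℝ)) (X ^ τ) S]; ring
    have hHX : (∏ i, |((b j i : ℤ) : ℝ)|) * (∏ i, |((a j i : ℤ) : ℝ)|) ≤ X := by
      refine hHe.trans ?_
      calc K2 * X ^ (σ + η) ≤ X ^ (1 - (σ + η)) * X ^ (σ + η) :=
            mul_le_mul_of_nonneg_right h4 (Real.rpow_nonneg hX0.le _)
        _ = X := by
            rw [← Real.rpow_add hX0]
            have : 1 - (σ + η) + (σ + η) = 1 := by ring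
            rw [this, Real.rpow_one]
    obtain ⟨hF1, hF2⟩ := hF (t j) (htT j)
    set Φ : ℝ := (e0 : ℝ) * Real.log (t j) + ∑ i, (E i (t j) : ℝ) * Real.log (A i (t j)) with hΦ
    have hFle : |Φ| ≤ 1 := by
      refine hF2.trans ?_
      have h6 : ((t j : ℤ) : ℝ) ≤ ((t j : ℤ) : ℝ) ^ k := le_self_pow₀ ht1 (by omega)
      rw [← div_eq_mul_inv, div_le_one (by positivity)]
      exact (htK j).trans h6
    have hprodj : (∏ i, ((a j i : ℝ) ^ (b j i))) = Real.exp Φ := hprod j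
    have hne1 : (∏ i, ((a j i : ℝ) ^ (b j i))) ≠ 1 := by
      rw [hprodj]; exact fun h => hF1 (by simpa using h)
    refine ⟨a j, b j, rfl, ⟨ha j, hcopa j, hbne j, hne1, ?_⟩, hHX⟩
    have hH0 : 0 < (∏ i, |((b j i : ℤ) : ℝ)|) * (∏ i, |((a j i : ℤ) : ℝ)|) := by
      refine mul_pos (Finset.prod_pos fun i _ => ?_) (Finset.prod_pos fun i _ => ?_)
      · exact abs_pos.mpr (by exact_mod_cast hbne j i)
      · have := ha j i
        exact abs_pos.mpr (by exact_mod_cast (by omega : a j i ≠ 0))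
    have hBθ : κ * X ^ (θ * τ)
        ≤ ((Finset.univ.sup fun i => (b j i).natAbs : ℕ) : ℝ) ^ θ := by
      have hB0 : 0 < ((Finset.univ.sup fun i => (b j i).natAbs : ℕ) : ℝ) :=
        lt_of_lt_of_le ht0 (hBge j)
      have hXθ : 0 ≤ X ^ (θ * τ) := Real.rpow_nonneg hX0.le _
      rcases le_or_gt 0 θ with hθ | hθ
      · calc κ * X ^ (θ * τ) ≤ (P : ℝ) ^ (-θ) * X ^ (θ * τ) := by
              refine mul_le_mul_of_nonneg_right ?_ hXθ
              rw [hκ]; exact min_le_left _ _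
          _ = (X ^ τ / P) ^ θ := by
              rw [Real.div_rpow (Real.rpow_nonneg hX0.le _) hP0.le, ← Real.rpow_mul hX0.le,
                Real.rpow_neg hP0.le, mul_comm τ θ]
              ring
          _ ≤ ((Finset.univ.sup fun i => (b j i).natAbs : ℕ) : ℝ) ^ θ := by
              refine Real.rpow_le_rpow (by positivity) ?_ hθ
              refine le_trans ?_ (hBge j)
              rw [div_le_iff₀ hP0]
              have := htlo j
              linarith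
      · calc κ * X ^ (θ * τ) ≤ (K' * (6 * M')) ^ θ * X ^ (θ * τ) := by
              refine mul_le_mul_of_nonneg_right ?_ hXθ
              rw [hκ]; exact min_le_right _ _
          _ = (K' * (6 * M' * X ^ τ)) ^ θ := by
              have h6 : K' * (6 * (M' : ℝ) * X ^ τ) = (K' * (6 * (M' : ℝ))) * X ^ τ := by ring
              rw [h6, Real.mul_rpow (by positivity) (Real.rpow_nonneg hX0.le _),
                ← Real.rpow_mul hX0.le, mul_comm τ θ]
          _ ≤ ((Finset.univ.sup fun i => (b j i).natAbs : ℕ) : ℝ) ^ θ := by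
              refine Real.rpow_le_rpow_of_nonpos hB0 ?_ hθ.le
              refine (hBle j).trans ?_
              exact mul_le_mul_of_nonneg_left (hthi j hjN) (by positivity)
    have hD : |(∏ i, ((a j i : ℝ) ^ (b j i))) - 1|
        ≤ 2 * (K * (P : ℝ) ^ k) * X ^ (-((k : ℝ) * τ)) := by
      rw [hprodj]
      refine (Real.abs_exp_sub_one_le hFle).trans ?_
      have h6 : (((t j : ℤ) : ℝ) ^ k)⁻¹ ≤ (P : ℝ) ^ k * X ^ (-((k : ℝ) * τ)) := by
        have h7 : X ^ ((k : ℝ) * τ) = (X ^ τ) ^ k := by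
          rw [← Real.rpow_natCast (X ^ τ) k, ← Real.rpow_mul hX0.le, mul_comm]
        rw [Real.rpow_neg hX0.le, ← div_eq_mul_inv, le_div_iff₀ (Real.rpow_pos_of_pos hX0 _),
          inv_mul_le_iff₀ (by positivity), h7, mul_comm, ← mul_pow]
        exact pow_le_pow_left₀ (Real.rpow_nonneg hX0.le _) (htlo j) k
      calc 2 * |Φ| ≤ 2 * (K * ((P : ℝ) ^ k * X ^ (-((k : ℝ) * τ)))) := by
            have h8 := hF2.trans (mul_le_mul_of_nonneg_left h6 (by linarith : (0 : ℝ) ≤ K))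
            linarith
        _ = _ := by ring
    exact final_ineq' (K * (P : ℝ) ^ k) K2 κ ε C X ((k : ℝ) * τ) (θ * τ) (σ + η) _ _ _
      (by positivity) hK20.le hε hC hX0 hH0 hD hBθ hHe h5

end Pool.Agent.H473.LW
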