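import Pool.Agent.H473.LW.Many6
import Pool.Agent.H473.LW.Pow2

/-!
# The family of six integers with one more integer: the number of tuples
-/

set_option autoImplicit false

namespace Pool.Agent.H473.LW

open Finset Filter Topology

theorem many6' (s : ℕ) (θ ε β : ℝ) (hε : 0 ≤ ε) (hβ : 0 ≤ β) (hβ1 : 11 * β < 1)
    (hlt : 10 * (1 + ε) < (10 + θ) * (1 - β)) (C : ℝ) (hC : 0 < C) :
    ∀ᶠ X : ℝ in atTop, ∃ F : Finset ℝ,
        X ^ β ≤ (F.card : ℝ) ∧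
        ∀ x ∈ F, ∃ a b : Fin (5 + (s + 2)) → ℤ,
          (∏ i, ((a i : ℝ) ^ (b i))) = x ∧ ((∀ i, 1 < a i) ∧
          (Pairwise fun i j => IsCoprime (a i) (a j)) ∧ (∀ i, b i ≠ 0) ∧
          (∏ i, ((a i : ℝ) ^ (b i))) ≠ 1 ∧
          |(∏ i, ((a i : ℝ) ^ (b i))) - 1|
            < C * ((Finset.univ.sup fun i => (b i).natAbs : ℕ) : ℝ) ^ θ /
              ((∏ i, |((b i : ℤ) : ℝ)|) * (∏ i, |((a i : ℤ) : ℝ)|)) ^ (1 + ε)) ∧
          (∏ i, |((b i : ℤ) : ℝ)|) * (∏ i, |((a i : ℤ) : ℝ)|) ≤ X := by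
  have h7 : ∀ t : ℤ, 10 ^ 12 ≤ t → 10 ^ 7 ≤ t := fun t ht => le_trans (by norm_num) ht
  obtain ⟨τ, hτ1, hτ2, hτ3⟩ : ∃ τ : ℝ, β < τ ∧
      (10 * τ + β) * (1 + ε) < (10 + θ) * τ ∧ τ < (1 - β) / 10 := by
    have e1 : ∀ᶠ τ : ℝ in 𝓝[<] ((1 - β) / 10), β < τ := by
      refine nhdsWithin_le_nhds (Ioi_mem_nhds ?_)
      linarith
    have e2 : ∀ᶠ τ : ℝ in 𝓝[<] ((1 - β) / 10), (10 * τ + β) * (1 + ε) < (10 + θ) * τ := by
      refine nhdsWithin_le_nhds ?_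
      have c1 : ContinuousAt (fun τ : ℝ => (10 * τ + β) * (1 + ε)) ((1 - β) / 10) := by fun_prop
      have c2 : ContinuousAt (fun τ : ℝ => (10 + θ) * τ) ((1 - β) / 10) := by fun_prop
      refine c1.eventually_lt c2 ?_
      have h1 : (10 * ((1 - β) / 10) + β) * (1 + ε) = 1 + ε := by ring
      have h2 : (10 + θ) * ((1 - β) / 10) = (10 + θ) * (1 - β) / 10 := by ring
      rw [h1, h2]
      linarith
    have e3 : ∀ᶠ τ : ℝ in 𝓝[<] ((1 - β) / 10), τ < (1 - β) / 10 := self_mem_nhdsWithin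
    exact (e1.and (e2.and e3)).exists
  refine many2 A6 E6 (-240) (by norm_num) 10 10 (10 ^ 40) 5040 (by norm_num)
    (10 ^ 12) (by norm_num) (fun t ht => A6_gt t (h7 t ht)) (fun t ht => E6_ne t (h7 t ht))
    ?_ A6_coprime_t (fun t ht => height6 t (h7 t ht)) ?_ ?_
    (fun t ht => F6_main t (h7 t ht)) F6_inj (by norm_num) s θ ε β τ hε hβ hτ1
    (by push_cast; linarith) (by push_cast; linarith) C hC
  · intro t ht i j hij
    refine A6_coprime t (Dvd.dvd.trans ?_ ht) i j hij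
    norm_num
  · intro t ht
    have hT : (10 : ℝ) ^ 7 ≤ (t : ℝ) := by exact_mod_cast h7 t ht
    refine ⟨0, ?_⟩
    simp [E6]
    rw [le_abs]
    right; linarith
  · intro t ht i
    have hT : (10 : ℝ) ^ 7 ≤ (t : ℝ) := by exact_mod_cast h7 t ht
    fin_cases i <;> simp [E6] <;> (try rw [abs_le]) <;> (try constructor) <;> linarith

end Pool.Agent.H473.LW
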