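import Pool.Agent.H473.LW.Fam8
import Pool.Agent.H473.LW.Pow

/-!
# The family of eight integers: power-many tuples
-/

set_option autoImplicit false

namespace Pool.Agent.H473.LW

open Finset Filter Topology

lemma A8_coprime_t (t : ℤ) (ht : ((61779564000 : ℕ) : ℤ) ∣ t - 1) (i : Fin 7) :
    IsCoprime t (A8 i t) := by
  obtain ⟨s, hs⟩ := ht
  have hs2 : t = 1 + 61779564000 * s := by push_cast at hs; linarith
  have key : ∀ c r : ℤ, 61779564000 = c * r → IsCoprime t c := by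
    intro c r hcr
    refine ⟨1, -(r * s), ?_⟩
    rw [hs2, hcr]; ring
  fin_cases i
  · have := (key 60 1029659400 (by norm_num)).add_mul_left_right 1
    simpa [A8, add_comm] using this
  · have := (key (-60) (-1029659400) (by norm_num)).add_mul_left_right 1
    simpa [A8, add_comm, sub_eq_add_neg] using this
  · have := (key 30 2059318800 (by norm_num)).add_mul_left_right 1
    simpa [A8, add_comm] using this
  · have := (key (-30) (-2059318800) (by norm_num)).add_mul_left_right 1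
    simpa [A8, add_comm, sub_eq_add_neg] using this
  · have := (key (-540) (-114406600) (by norm_num)).add_mul_left_right t
    have h2 : A8 4 t = -540 + t * t := by simp [A8]; ring
    exact h2 ▸ this
  · have := (key (-2250) (-27457584) (by norm_num)).add_mul_left_right t
    have h2 : A8 5 t = -2250 + t * t := by simp [A8]; ring
    exact h2 ▸ this
  · have := (key (-3300) (-18721080) (by norm_num)).add_mul_left_right t
    have h2 : A8 6 t = -3300 + t * t := by simp [A8]; ring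
    exact h2 ▸ this

lemma F8_inj (t t' : ℤ) (ht : 10 ^ 12 ≤ t) (htt : t < t') :
    ((-117318768 : ℤ) : ℝ) * Real.log t + ∑ i, ((E8 i t : ℤ) : ℝ) * Real.log ((A8 i t : ℤ) : ℝ)
    ≠ ((-117318768 : ℤ) : ℝ) * Real.log t'
      + ∑ i, ((E8 i t' : ℤ) : ℝ) * Real.log ((A8 i t' : ℤ) : ℝ) := by
  have ht7 : (10 : ℤ) ^ 7 ≤ t := le_trans (by norm_num) ht
  have ht7' : (10 : ℤ) ^ 7 ≤ t' := by omega
  have hT : (10 : ℝ) ^ 12 ≤ (t : ℝ) := by exact_mod_cast ht
  have hTT : (t : ℝ) + 1 ≤ (t' : ℝ) := by exact_mod_cast htt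
  have hT0 : (0 : ℝ) < (t : ℝ) := by linarith [show (0 : ℝ) < 10 ^ 12 by norm_num]
  have hT0' : (0 : ℝ) < (t' : ℝ) := by linarith
  have hx : 60 / (t : ℝ) ≤ 1 / 10 ^ 10 := by
    rw [div_le_div_iff₀ hT0 (by norm_num)]
    have : (10 : ℝ) ^ 12 = 10 ^ 12 := rfl
    linarith
  have hx' : 60 / (t' : ℝ) ≤ 1 / 2 := by
    rw [div_le_div_iff₀ hT0' (by norm_num)]
    linarith [show (120 : ℝ) ≤ 10 ^ 12 by norm_num]
  have h1 := G8_bound (60 / (t : ℝ)) (by positivity) (hx.trans (by norm_num))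
  have h2 := G8_bound (60 / (t' : ℝ)) (by positivity) hx'
  rw [← F8_eq t ht7] at h1
  rw [← F8_eq t' ht7'] at h2
  refine ne_of_gt (expansion_lt 15 (39470277 / 40960) (10 ^ 10) (1 / 120) (60 / (t : ℝ))
    (60 / (t' : ℝ)) _ _ (by norm_num) (by norm_num) (by norm_num) (by positivity) (by positivity)
    ?_ ?_ h1 h2)
  · have h3 : 60 / (t' : ℝ) ≤ 60 / ((t : ℝ) + 1) :=
      div_le_div_of_nonneg_left (by norm_num) (by linarith) hTT
    refine h3.trans ?_
    have h4 : 60 / (t : ℝ) - 1 / 120 * (60 / (t : ℝ)) ^ 2 = (60 * t - 30) / (t : ℝ) ^ 2 := by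
      field_simp
      ring
    rw [h4, div_le_div_iff₀ (by linarith) (by positivity)]
    nlinarith [show (1 : ℝ) ≤ 10 ^ 12 by norm_num]
  · have h5 : 2 * (10 : ℝ) ^ 10 * (60 / (t : ℝ)) ≤ 2 * 10 ^ 10 * (1 / 10 ^ 10) := by gcongr
    refine lt_of_le_of_lt h5 ?_
    norm_num

theorem many8 (s n : ℕ) (hn : 1 ≤ n) (θ ε : ℝ) (hε : 0 ≤ ε)
    (hlt : (14 * (n : ℝ) + 1) * (1 + ε) < (16 + θ) * n) (C : ℝ) (hC : 0 < C) :
    ∃ κ : ℝ, 0 < κ ∧ ∀ᶠ X : ℝ in atTop, ∃ F : Finset ℝ,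
        κ * X ^ ((1 : ℝ) / ((14 * n + 1 : ℕ) : ℝ)) ≤ (F.card : ℝ) ∧
        ∀ x ∈ F, ∃ a b : Fin (7 + (s + 1)) → ℤ,
          (∏ i, ((a i : ℝ) ^ (b i))) = x ∧ ((∀ i, 1 < a i) ∧
          (Pairwise fun i j => IsCoprime (a i) (a j)) ∧ (∀ i, b i ≠ 0) ∧
          (∏ i, ((a i : ℝ) ^ (b i))) ≠ 1 ∧
          |(∏ i, ((a i : ℝ) ^ (b i))) - 1|
            < C * ((Finset.univ.sup fun i => (b i).natAbs : ℕ) : ℝ) ^ θ /
              ((∏ i, |((b i : ℤ) : ℝ)|) * (∏ i, |((a i : ℤ) : ℝ)|)) ^ (1 + ε)) ∧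
          (∏ i, |((b i : ℤ) : ℝ)|) * (∏ i, |((a i : ℤ) : ℝ)|) ≤ X := by
  have h7 : ∀ t : ℤ, 10 ^ 12 ≤ t → 10 ^ 7 ≤ t := fun t ht => le_trans (by norm_num) ht
  refine many A8 E8 (-117318768) (by norm_num) 16 14 (10 ^ 61) 61779564000 (by norm_num)
    (10 ^ 12) (by norm_num) (fun t ht => A8_gt t (h7 t ht)) (fun t ht => E8_ne t (h7 t ht))
    ?_ A8_coprime_t (fun t ht => height8 t (h7 t ht)) ?_ ?_ (fun t ht => F8_main t (h7 t ht))
    F8_inj (by norm_num) s n hn θ ε hε (by push_cast; linarith) C hC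
  · intro t ht i j hij
    refine A8_coprime t (Dvd.dvd.trans ?_ ht) i j hij
    norm_num
  · intro t ht
    have hT : (10 : ℝ) ^ 7 ≤ (t : ℝ) := by exact_mod_cast h7 t ht
    refine ⟨0, ?_⟩
    simp [E8]
    rw [le_abs]
    right; linarith
  · intro t ht i
    have hT : (10 : ℝ) ^ 7 ≤ (t : ℝ) := by exact_mod_cast h7 t ht
    fin_cases i <;> simp [E8] <;> (try rw [abs_le]) <;> (try constructor) <;> linarith

end Pool.Agent.H473.LW
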